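import Pool.Agent.H57.GD.Stm

/-!
# Contraction of an edge from deletion and subdivision
-/

set_option autoImplicit false
set_option linter.unusedSectionVars false
set_option linter.unusedVariables false

open CategoryTheory AlgebraicGeometry MvPolynomial Pool.Agent.Y116.UV Pool.Agent.Z125.UN
  Pool.Agent.H57.ZP

namespace Pool.Agent.H57.GD

namespace CONP

variable {R : Type} [CommRing R] {sep : Prop} {P : Sch R → Prop} {σ : Type} [Finite σ]
  {F : Cond R σ}

/-- the coordinates `(s, ρ)` as polynomials of `(c, ρ)`. -/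
theorem rep_Z (hF : IsRep F) (A B : MvPolynomial σ R) :
    IsRep (R := R) fun C _ _ (u : σ ⊕ Fin 2 → C) => (F C fun s => u (Sum.inl s)) ∧
      (IsUnit (u (Sum.inr 0)) ∧
      IsUnit (aeval (fun s => u (Sum.inl s)) A +
        u (Sum.inr 0) * u (Sum.inr 1) * (1 - u (Sum.inr 1)) *
          aeval (fun s => u (Sum.inl s)) B)) := by
  refine ((hF.reindex (Sum.inl : σ → σ ⊕ Fin 2)).and ((rep_unit (X (Sum.inr 0))).and
    (rep_unit (rename Sum.inl A + X (Sum.inr 0) * X (Sum.inr 1) * (1 - X (Sum.inr 1)) *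
      rename Sum.inl B)))).congr fun C _ _ u => ?_
  simp only [map_add, map_mul, map_sub, map_one, aeval_rename, aeval_X]
  rfl

/-- `Z ∧ ρ = 0`, `Z ∧ ρ = 1` -/
theorem has_Z0 (hP : Bnd sep P) (hF : IsRep F) (A B : MvPolynomial σ R)
    (H1 : Has P fun C _ _ u => F C u ∧ IsUnit (aeval u A)) :
    Has P (R := R) fun C _ _ (u : σ ⊕ Fin 2 → C) => ((F C fun s => u (Sum.inl s)) ∧
      (IsUnit (u (Sum.inr 0)) ∧
      IsUnit (aeval (fun s => u (Sum.inl s)) A +
        u (Sum.inr 0) * u (Sum.inr 1) * (1 - u (Sum.inr 1)) *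
          aeval (fun s => u (Sum.inl s)) B))) ∧ aeval u (X (Sum.inr 1) : MvPolynomial (σ ⊕ Fin 2) R) = 0 := by
  refine (has_gm hP H1).iso hP ((rep_Z hF A B).and (rep_eq _))
    (Sum.elim (fun s => X (Sum.inl s)) fun _ => X (Sum.inr 0)) ?_ ?_ ?_
  · rintro C _ _ u ⟨⟨h1, h2, h3⟩, h4⟩
    rw [aeval_X] at h4
    rw [h4, mul_zero, zero_mul, zero_mul, add_zero] at h3
    simp only [Sum.elim_inl, Sum.elim_inr, aeval_X]
    exact ⟨⟨h1, h3⟩, h2⟩
  · rintro C _ _ u ⟨⟨h1, h2⟩, h3⟩
    refine ⟨Sum.elim (fun s => u (Sum.inl s)) ![u (Sum.inr ()), 0], ⟨⟨h1, ?_, ?_⟩, ?_⟩, ?_⟩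
    · exact h3
    · simp only [Sum.elim_inl, Sum.elim_inr, Matrix.cons_val_zero, Matrix.cons_val_one,
        mul_zero, zero_mul, add_zero]
      exact h2
    · rw [aeval_X]; rfl
    · rintro (s | s)
      · simp only [Sum.elim_inl, aeval_X]
      · simp only [Sum.elim_inr, aeval_X]; rfl
  · rintro C _ _ u u' h h' h3
    funext x
    rcases x with x | x
    · have h4 := h3 (Sum.inl x)
      simp only [Sum.elim_inl, aeval_X] at h4
      exact h4
    · fin_cases x
      · have h4 := h3 (Sum.inr ())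
        simp only [Sum.elim_inr, aeval_X] at h4
        exact h4
      · have h4 := h.2
        have h5 := h'.2
        rw [aeval_X] at h4 h5
        exact h4.trans h5.symm

theorem has_Z1 (hP : Bnd sep P) (hF : IsRep F) (A B : MvPolynomial σ R)
    (H1 : Has P fun C _ _ u => F C u ∧ IsUnit (aeval u A)) :
    Has P (R := R) fun C _ _ (u : σ ⊕ Fin 2 → C) => (((F C fun s => u (Sum.inl s)) ∧
      (IsUnit (u (Sum.inr 0)) ∧
      IsUnit (aeval (fun s => u (Sum.inl s)) A +
        u (Sum.inr 0) * u (Sum.inr 1) * (1 - u (Sum.inr 1)) *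
          aeval (fun s => u (Sum.inl s)) B))) ∧
        IsUnit (aeval u (X (Sum.inr 1) : MvPolynomial (σ ⊕ Fin 2) R))) ∧
        aeval u (1 - X (Sum.inr 1) : MvPolynomial (σ ⊕ Fin 2) R) = 0 := by
  refine (has_gm hP H1).iso hP (((rep_Z hF A B).and (rep_unit _)).and (rep_eq _))
    (Sum.elim (fun s => X (Sum.inl s)) fun _ => X (Sum.inr 0)) ?_ ?_ ?_
  · rintro C _ _ u ⟨⟨⟨h1, h2, h3⟩, h5⟩, h4⟩
    rw [map_sub, map_one, aeval_X] at h4
    rw [h4, mul_zero, zero_mul, add_zero] at h3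
    simp only [Sum.elim_inl, Sum.elim_inr, aeval_X]
    exact ⟨⟨h1, h3⟩, h2⟩
  · rintro C _ _ u ⟨⟨h1, h2⟩, h3⟩
    refine ⟨Sum.elim (fun s => u (Sum.inl s)) ![u (Sum.inr ()), 1], ⟨⟨⟨h1, ?_, ?_⟩, ?_⟩, ?_⟩, ?_⟩
    · exact h3
    · simp only [Sum.elim_inl, Sum.elim_inr, Matrix.cons_val_zero, Matrix.cons_val_one,
        mul_zero, zero_mul, add_zero, sub_self]
      exact h2
    · rw [aeval_X]; exact isUnit_one
    · rw [map_sub, map_one, aeval_X]
      exact sub_self 1
    · rintro (s | s)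
      · simp only [Sum.elim_inl, aeval_X]
      · simp only [Sum.elim_inr, aeval_X]; rfl
  · rintro C _ _ u u' h h' h3
    funext x
    rcases x with x | x
    · have h4 := h3 (Sum.inl x)
      simp only [Sum.elim_inl, aeval_X] at h4
      exact h4
    · fin_cases x
      · have h4 := h3 (Sum.inr ())
        simp only [Sum.elim_inr, aeval_X] at h4
        exact h4
      · have h4 := h.2
        have h5 := h'.2
        rw [map_sub, map_one, aeval_X, sub_eq_zero] at h4 h5
        exact h4.symm.trans h5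

/-- `Y = {(u, c, ρ): F, a + c b unit, c unit, ρ unit, 1 - ρ unit}` -/
theorem has_Y (hP : Bnd sep P) (hF : IsRep F) (A B : MvPolynomial σ R)
    (H1 : Has P fun C _ _ u => F C u ∧ IsUnit (aeval u A))
    (H2 : Has P (R := R) fun C _ _ (u : σ ⊕ Unit → C) => (F C fun s => u (Sum.inl s)) ∧
      IsUnit (aeval (fun s => u (Sum.inl s)) A + u (Sum.inr ()) * aeval (fun s => u (Sum.inl s)) B)) :
    Has P (R := R) fun C _ _ (u : (σ ⊕ Unit) ⊕ Unit → C) =>
      ((((F C fun s => u (Sum.inl (Sum.inl s))) ∧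
      IsUnit (aeval (fun s => u (Sum.inl (Sum.inl s))) A + u (Sum.inl (Sum.inr ())) *
        aeval (fun s => u (Sum.inl (Sum.inl s))) B)) ∧ IsUnit (u (Sum.inl (Sum.inr ())))) ∧
        IsUnit (u (Sum.inr ()))) ∧ IsUnit (1 - u (Sum.inr ())) := by
  have hY1 : Has P (R := R) fun C _ _ (u : σ ⊕ Unit → C) => ((F C fun s => u (Sum.inl s)) ∧
      IsUnit (aeval (fun s => u (Sum.inl s)) A + u (Sum.inr ()) *
        aeval (fun s => u (Sum.inl s)) B)) ∧ IsUnit (u (Sum.inr ())) := by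
    refine (has_open hP H2 (X (Sum.inr ())) ?_).congr fun C _ _ u => by rw [aeval_X]
    refine H1.iso hP (H2.rep.and (rep_eq _)) (fun s => X (Sum.inl s)) ?_ ?_ ?_
    · rintro C _ _ u ⟨⟨h1, h2⟩, h3⟩
      rw [aeval_X] at h3
      rw [h3, zero_mul, add_zero] at h2
      simp only [aeval_X]
      exact ⟨h1, h2⟩
    · rintro C _ _ u ⟨h1, h2⟩
      refine ⟨Sum.elim u 0, ⟨⟨h1, ?_⟩, ?_⟩, fun s => ?_⟩
      · simp only [Sum.elim_inl, Sum.elim_inr, Pi.zero_apply, zero_mul, add_zero]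
        exact h2
      · rw [aeval_X]; rfl
      · rw [aeval_X]; rfl
    · rintro C _ _ u u' h h' h3
      funext x
      rcases x with x | x
      · have h4 := h3 x
        simp only [aeval_X] at h4
        exact h4
      · have h4 := h.2
        have h5 := h'.2
        rw [aeval_X] at h4 h5
        exact h4.trans h5.symm
  refine (has_open hP (has_gm hP hY1) (1 - X (Sum.inr ())) ?_).congr fun C _ _ u => by
    rw [map_sub, map_one, aeval_X]
  refine hY1.iso hP ((has_gm hP hY1).rep.and (rep_eq _)) (fun s => X (Sum.inl s)) ?_ ?_ ?_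
  · rintro C _ _ u ⟨⟨h1, h2⟩, h3⟩
    simp only [aeval_X]
    exact h1
  · rintro C _ _ u h1
    refine ⟨Sum.elim u 1, ⟨⟨h1, ?_⟩, ?_⟩, fun s => ?_⟩
    · exact isUnit_one
    · rw [map_sub, map_one, aeval_X]
      exact sub_self 1
    · rw [aeval_X]; rfl
  · rintro C _ _ u u' h h' h3
    funext x
    rcases x with x | x
    · have h4 := h3 x
      simp only [aeval_X] at h4
      exact h4
    · have h4 := h.2
      have h5 := h'.2
      rw [map_sub, map_one, aeval_X, sub_eq_zero] at h4 h5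
      exact h4.symm.trans h5

/-- the locus `(s, ρ)` -/
theorem has_Z (hP : Bnd sep P) (hF : IsRep F) (A B : MvPolynomial σ R)
    (H1 : Has P fun C _ _ u => F C u ∧ IsUnit (aeval u A))
    (H2 : Has P (R := R) fun C _ _ (u : σ ⊕ Unit → C) => (F C fun s => u (Sum.inl s)) ∧
      IsUnit (aeval (fun s => u (Sum.inl s)) A + u (Sum.inr ()) * aeval (fun s => u (Sum.inl s)) B)) :
    Has P (R := R) fun C _ _ (u : σ ⊕ Fin 2 → C) => (F C fun s => u (Sum.inl s)) ∧
      (IsUnit (u (Sum.inr 0)) ∧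
      IsUnit (aeval (fun s => u (Sum.inl s)) A +
        u (Sum.inr 0) * u (Sum.inr 1) * (1 - u (Sum.inr 1)) *
          aeval (fun s => u (Sum.inl s)) B)) := by
  refine has_total hP (rep_Z hF A B) (X (Sum.inr 1)) (has_Z0 hP hF A B H1) ?_
  refine has_total hP ((rep_Z hF A B).and (rep_unit _)) (1 - X (Sum.inr 1))
    (has_Z1 hP hF A B H1) ?_
  refine (has_Y hP hF A B H1 H2).iso hP (((rep_Z hF A B).and (rep_unit _)).and (rep_unit _))
    (Sum.elim (Sum.elim (fun s => X (Sum.inl s))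
      fun _ => X (Sum.inr 0) * X (Sum.inr 1) * (1 - X (Sum.inr 1))) fun _ => X (Sum.inr 1)) ?_ ?_ ?_
  · rintro C _ _ u ⟨⟨⟨h1, h2, h3⟩, h5⟩, h4⟩
    rw [aeval_X] at h5
    rw [map_sub, map_one, aeval_X] at h4
    simp only [Sum.elim_inl, Sum.elim_inr, aeval_X, map_mul, map_sub, map_one]
    exact ⟨⟨⟨⟨h1, h3⟩, (h2.mul h5).mul h4⟩, h5⟩, h4⟩
  · rintro C _ _ u ⟨⟨⟨⟨h1, h2⟩, h3⟩, h4⟩, h5⟩
    obtain ⟨v, hv⟩ := h4
    obtain ⟨w, hw⟩ := h5
    have e : u (Sum.inl (Sum.inr ())) * ↑v⁻¹ * ↑w⁻¹ * u (Sum.inr ()) * (1 - u (Sum.inr ())) =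
        u (Sum.inl (Sum.inr ())) := by
      rw [← hv] at hw ⊢
      rw [← hw]
      calc u (Sum.inl (Sum.inr ())) * ↑v⁻¹ * ↑w⁻¹ * ↑v * ↑w
          = u (Sum.inl (Sum.inr ())) * (↑v⁻¹ * ↑v) * (↑w⁻¹ * ↑w) := by ring
        _ = _ := by rw [Units.inv_mul, Units.inv_mul, mul_one, mul_one]
    refine ⟨Sum.elim (fun s => u (Sum.inl (Sum.inl s)))
      ![u (Sum.inl (Sum.inr ())) * ↑v⁻¹ * ↑w⁻¹, u (Sum.inr ())], ⟨⟨⟨h1, ?_, ?_⟩, ?_⟩, ?_⟩, ?_⟩
    · exact (h3.mul (Units.isUnit _)).mul (Units.isUnit _)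
    · simp only [Sum.elim_inl, Sum.elim_inr, Matrix.cons_val_zero, Matrix.cons_val_one]
      rw [e]
      exact h2
    · rw [aeval_X]
      exact ⟨v, hv⟩
    · rw [map_sub, map_one, aeval_X]
      exact ⟨w, hw⟩
    · rintro ((s | s) | s)
      · simp only [Sum.elim_inl, aeval_X]
      · simp only [Sum.elim_inl, Sum.elim_inr, aeval_X, map_mul, map_sub, map_one,
          Matrix.cons_val_zero, Matrix.cons_val_one]
        exact e
      · simp only [Sum.elim_inr, aeval_X]
        rfl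
  · rintro C _ _ u u' ⟨⟨⟨-, -, -⟩, h5⟩, h4⟩ - h3
    rw [aeval_X] at h5
    rw [map_sub, map_one, aeval_X] at h4
    have k1 : u (Sum.inr 1) = u' (Sum.inr 1) := by
      have h6 := h3 (Sum.inr ())
      simp only [Sum.elim_inr, aeval_X] at h6
      exact h6
    funext x
    rcases x with x | x
    · have h6 := h3 (Sum.inl (Sum.inl x))
      simp only [Sum.elim_inl, aeval_X] at h6
      exact h6
    · fin_cases x
      · have h6 := h3 (Sum.inl (Sum.inr ()))
        simp only [Sum.elim_inl, Sum.elim_inr, aeval_X, map_mul, map_sub, map_one] at h6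
        rw [← k1] at h6
        have h7 := h4.mul_right_cancel h6
        exact h5.mul_right_cancel h7
      · exact k1

end CONP

open CONP in
theorem con_sound : S_CON := by
  intro R _ sep P hP σ _ F hF A B H1 H2 H3
  -- `W ∧ x + x'` a unit
  have hW : Has P (R := R) fun C _ _ (u : σ ⊕ Fin 2 → C) => ((F C fun s => u (Sum.inl s)) ∧
      IsUnit ((u (Sum.inr 0) + u (Sum.inr 1)) * aeval (fun s => u (Sum.inl s)) A +
        u (Sum.inr 0) * u (Sum.inr 1) * aeval (fun s => u (Sum.inl s)) B)) ∧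
        IsUnit (aeval u (X (Sum.inr 0) + X (Sum.inr 1) : MvPolynomial (σ ⊕ Fin 2) R)) := by
    refine Has.iso' hP (H3.rep.and (rep_unit _)) (has_Z hP hF A B H1 H2)
      (Sum.elim (fun s => X (Sum.inl s)) ![X (Sum.inr 0) * X (Sum.inr 1),
        X (Sum.inr 0) * (1 - X (Sum.inr 1))]) ?_ ?_ ?_
    · rintro C _ _ u ⟨h1, h2, h3⟩
      simp only [Sum.elim_inl, Sum.elim_inr, Matrix.cons_val_zero, Matrix.cons_val_one, aeval_X,
        map_mul, map_sub, map_one, map_add]
      refine ⟨⟨h1, ?_⟩, ?_⟩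
      · convert h2.mul h3 using 1
        ring
      · convert h2 using 1
        ring
    · rintro C _ _ u ⟨⟨h1, h2⟩, h3⟩
      rw [map_add, aeval_X, aeval_X] at h3
      obtain ⟨s, hs⟩ := h3
      have e1 : ↑s * (u (Sum.inr 0) * ↑s⁻¹) = u (Sum.inr 0) := by
        rw [mul_comm (u _), ← mul_assoc, Units.mul_inv, one_mul]
      have e2 : ↑s * (1 - u (Sum.inr 0) * ↑s⁻¹) = u (Sum.inr 1) := by
        rw [mul_sub, e1, hs]
        ring
      refine ⟨Sum.elim (fun s => u (Sum.inl s)) ![↑s, u (Sum.inr 0) * ↑s⁻¹],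
        ⟨h1, Units.isUnit _, ?_⟩, ?_⟩
      · simp only [Sum.elim_inl, Sum.elim_inr, Matrix.cons_val_zero, Matrix.cons_val_one]
        refine isUnit_of_mul_isUnit_right (x := (↑s : C)) ?_
        convert h2 using 1
        rw [← hs, mul_add]
        congr 1
        calc (↑s : C) * (↑s * (u (Sum.inr 0) * ↑s⁻¹) * (1 - u (Sum.inr 0) * ↑s⁻¹) *
              aeval (fun s => u (Sum.inl s)) B)
            = (↑s * (u (Sum.inr 0) * ↑s⁻¹)) * (↑s * (1 - u (Sum.inr 0) * ↑s⁻¹)) *
              aeval (fun s => u (Sum.inl s)) B := by ring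
          _ = _ := by rw [e1, e2]
      · rintro (x | x)
        · simp only [Sum.elim_inl, aeval_X]
        · fin_cases x
          · simp only [Sum.elim_inr, Fin.zero_eta, Fin.isValue, Matrix.cons_val_zero, map_mul, aeval_X,
              Matrix.cons_val_one]
            exact e1
          · simp only [Sum.elim_inr, Fin.mk_one, Fin.isValue, Matrix.cons_val_zero, map_mul, aeval_X,
              Matrix.cons_val_one, map_sub, map_one]
            exact e2
    · rintro C _ _ u u' ⟨-, h2, -⟩ ⟨-, -, -⟩ h3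
      have k0 : u (Sum.inr 0) * u (Sum.inr 1) = u' (Sum.inr 0) * u' (Sum.inr 1) := by
        have h6 := h3 (Sum.inr 0)
        simp only [Sum.elim_inr, Matrix.cons_val_zero, aeval_X, map_mul] at h6
        exact h6
      have k1 : u (Sum.inr 0) * (1 - u (Sum.inr 1)) = u' (Sum.inr 0) * (1 - u' (Sum.inr 1)) := by
        have h6 := h3 (Sum.inr 1)
        simp only [Sum.elim_inr, Matrix.cons_val_one, Matrix.cons_val_fin_one, aeval_X, map_mul,
          map_sub, map_one] at h6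
        exact h6
      have k2 : u (Sum.inr 0) = u' (Sum.inr 0) := by linear_combination k0 + k1
      funext x
      rcases x with x | x
      · have h6 := h3 (Sum.inl x)
        simp only [Sum.elim_inl, aeval_X] at h6
        exact h6
      · fin_cases x
        · exact k2
        · rw [← k2] at k0
          exact h2.mul_left_cancel k0
  have hC := has_closed hP H3 (X (Sum.inr 0) + X (Sum.inr 1)) hW
  have hR : IsRep (R := R) fun C _ _ u => F C u ∧ IsUnit (aeval u B) := hF.and (rep_unit B)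
  refine of_gm hP hR ?_
  refine hC.iso hP ((hR.reindex (Sum.inl : σ → σ ⊕ Unit)).and
    ((rep_unit (X (Sum.inr ()))).congr fun C _ _ u => by rw [aeval_X]))
    (Sum.elim (fun s => X (Sum.inl s)) ![X (Sum.inr ()), - X (Sum.inr ())]) ?_ ?_ ?_
  · rintro C _ _ u ⟨⟨h1, h2⟩, h3⟩
    simp only [Sum.elim_inl, Sum.elim_inr, Matrix.cons_val_zero, Matrix.cons_val_one, aeval_X,
      map_neg, map_add]
    refine ⟨⟨h1, ?_⟩, ?_⟩
    · convert ((h3.mul h3).mul h2).neg using 1
      ring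
    · ring
  · rintro C _ _ u ⟨⟨h1, h2⟩, h3⟩
    rw [map_add, aeval_X, aeval_X] at h3
    rw [h3, zero_mul, zero_add] at h2
    have h4 := isUnit_of_mul_isUnit_right h2
    have h5 := isUnit_of_mul_isUnit_left (isUnit_of_mul_isUnit_left h2)
    refine ⟨Sum.elim (fun s => u (Sum.inl s)) fun _ => u (Sum.inr 0), ⟨⟨h1, h4⟩, h5⟩, ?_⟩
    rintro (x | x)
    · simp only [Sum.elim_inl, aeval_X]
    · fin_cases x
      · simp only [Sum.elim_inr, Fin.zero_eta, Fin.isValue, Matrix.cons_val_zero, aeval_X]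
      · simp only [Sum.elim_inr, Fin.mk_one, Fin.isValue, aeval_X,
          Matrix.cons_val_one, Matrix.cons_val_fin_one, map_neg]
        linear_combination -h3
  · rintro C _ _ u u' - - h3
    funext x
    rcases x with x | x
    · have h6 := h3 (Sum.inl x)
      simp only [Sum.elim_inl, aeval_X] at h6
      exact h6
    · have h6 := h3 (Sum.inr 0)
      simp only [Sum.elim_inr, Matrix.cons_val_zero, aeval_X] at h6
      exact h6

end Pool.Agent.H57.GD
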