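import Pool.Agent.H57.GH.Defs

/-!
# Graphs of maximal degree three: definitions
-/

set_option autoImplicit false

namespace Pool.Agent.H57.GD

/-- All vertices of the graph `G` have degree at most three. -/
def MaxThree {V : Type} (G : SimpleGraph V) : Prop := ∀ v, (G.neighborSet v).ncard ≤ 3

end Pool.Agent.H57.GD
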