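import Pool.Agent.H57.GD.Split

/-!
# Degrees
-/

set_option autoImplicit false

open CategoryTheory AlgebraicGeometry MvPolynomial Pool.Agent.Y116.UV Pool.Agent.Z125.UN Matrix
  Pool.Agent.H57.ZP Pool.Agent.H57.GH

namespace Pool.Agent.H57.GD

variable {R : Type} [CommRing R]

open Classical in
/-- zero for `some 0`, one otherwise -/
noncomputable def ind (o : Option R) : ℕ := if o = some 0 then 0 else 1

lemma ind_zero : ind (some (0 : R)) = 0 := if_pos rfl

lemma ind_le (o : Option R) : ind o ≤ 1 := by
  unfold ind
  split_ifs <;> simp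

lemma ind_of {o : Option R} (h : o ≠ some 0) : ind o = 1 := if_neg h

section deg

variable {V : Type} [Fintype V] [DecidableEq V]

/-- the degree of a vertex -/
noncomputable def dg (Y : Sym2 V → Option R) (a : V) : ℕ := ∑ b, ind (Y s(a, b))

/-- the excess -/
noncomputable def ex (Y : Sym2 V → Option R) : ℕ := ∑ a, (dg Y a - 3)

variable {v : V} {S : V → Prop} [DecidablePred S] {τ : Option R} {Y : Sym2 V → Option R}

lemma dg_gd_none (hS : ¬ S v) : dg (gd (some 0) v S τ Y) none =
    ind τ + ∑ b, (if S b then ind (Y s(v, b)) else 0) := by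
  unfold dg
  rw [Fintype.sum_option]
  have h0 : gd (some 0) v S τ Y s(none, none) = some 0 := rfl
  rw [h0, ind_zero, zero_add]
  have h1 : ∀ b, ind (gd (some 0) v S τ Y s(none, some b)) =
      (if b = v then ind τ else 0) + if S b then ind (Y s(v, b)) else 0 := by
    intro b
    rw [gd_ns]
    by_cases hb : b = v
    · subst hb
      rw [if_pos rfl, if_pos rfl, if_neg hS, add_zero]
    · rw [if_neg hb, if_neg hb, zero_add]
      split_ifs
      · rfl
      · exact ind_zero
  rw [Finset.sum_congr rfl fun b _ => h1 b, Finset.sum_add_distrib]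
  simp

lemma dg_gd_v (hS : ¬ S v) : dg (gd (some 0) v S τ Y) (some v) =
    ind τ + ∑ b, (if S b then 0 else ind (Y s(v, b))) := by
  unfold dg
  rw [Fintype.sum_option, Sym2.eq_swap, gd_nv]
  congr 1
  refine Finset.sum_congr rfl fun b _ => ?_
  rw [gd_ss]
  by_cases hb : S b
  · rw [if_pos (Or.inl ⟨rfl, hb⟩), if_pos hb, ind_zero]
  · rw [if_neg, if_neg hb]
    rintro (h | h)
    · exact hb h.2
    · exact hS h.2

lemma dg_gd_some {a : V} (ha : a ≠ v) : dg (gd (some 0) v S τ Y) (some a) = dg Y a := by
  unfold dg
  rw [Fintype.sum_option, Sym2.eq_swap, gd_ns, if_neg ha]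
  have h1 : ∀ b, ind (gd (some 0) v S τ Y s(some a, some b)) +
      (if b = v then (if S a then ind (Y s(a, v)) else 0) else 0) = ind (Y s(a, b)) := by
    intro b
    rw [gd_ss]
    by_cases hb : b = v
    · subst hb
      by_cases hSa : S a
      · rw [if_pos (Or.inr ⟨rfl, hSa⟩), if_pos rfl, if_pos hSa, ind_zero, zero_add]
      · rw [if_neg, if_pos rfl, if_neg hSa, add_zero]
        rintro (h | h)
        · exact ha h.1
        · exact hSa h.2
    · rw [if_neg, if_neg hb, add_zero]
      rintro (h | h)
      · exact ha h.1
      · exact hb h.1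
  rw [← Finset.sum_congr rfl fun b _ => h1 b, Finset.sum_add_distrib]
  rw [Finset.sum_ite_eq' Finset.univ v fun _ => if S a then ind (Y s(a, v)) else 0,
    if_pos (Finset.mem_univ v), add_comm]
  congr 1
  split_ifs
  · rw [Sym2.eq_swap]
  · exact ind_zero

omit [DecidablePred S] in
lemma dg_sd_none {z : Sym2 (Option V) → Option R} :
    dg (sd (some 0) v none none z) none = 2 := by
  unfold dg
  rw [Fintype.sum_option, Fintype.sum_option]
  have h0 : sd (some 0) v none none z s(none, none) = some 0 := rfl
  have h1 : sd (some 0) v none none z s(none, some none) = none := rfl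
  have h2 : ∀ b, ind (sd (some 0) v none none z s(none, some (some b))) =
      if b = v then 1 else 0 := by
    intro b
    change ind (if b = v then none else some 0) = _
    split_ifs
    · exact ind_of (fun h => Option.some_ne_none _ h.symm)
    · exact ind_zero
  rw [h0, h1, ind_zero, ind_of (fun h => Option.some_ne_none _ h.symm),
    Finset.sum_congr rfl fun b _ => h2 b]
  simp

omit [DecidablePred S] in
lemma dg_sd_some {z : Sym2 (Option V) → Option R} (p : Option V) :
    dg (sd (some 0) v none none z) (some p) =
      (if p = none ∨ p = some v then 1 else 0) + dg z p := by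
  unfold dg
  rw [Fintype.sum_option]
  congr 1
  · rcases p with - | a
    · rw [if_pos (Or.inl rfl)]
      exact ind_of (fun h => Option.some_ne_none _ h.symm)
    · rw [Sym2.eq_swap]
      change ind (if a = v then none else some 0) = _
      by_cases ha : a = v
      · rw [if_pos ha, if_pos (Or.inr (by rw [ha]))]
        exact ind_of (fun h => Option.some_ne_none _ h.symm)
      · rw [if_neg ha, if_neg]
        · exact ind_zero
        · rintro (h | h)
          · exact Option.some_ne_none _ h
          · exact ha (Option.some_injective _ h)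
  · exact Finset.sum_congr rfl fun q _ => by rw [sd_some]

/-- the sum over `S` and over its complement -/
lemma dg_split : (∑ b, (if S b then ind (Y s(v, b)) else 0)) +
    (∑ b, (if S b then 0 else ind (Y s(v, b)))) = dg Y v := by
  unfold dg
  rw [← Finset.sum_add_distrib]
  refine Finset.sum_congr rfl fun b _ => ?_
  split_ifs <;> simp

variable (v S Y) in
/-- the number of the neighbours in `S` -/
noncomputable def nS : ℕ := ∑ b, (if S b then ind (Y s(v, b)) else 0)

lemma ex_gd (hS : ¬ S v) (h2 : nS v S Y = 2) (h4 : 4 ≤ dg Y v) :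
    ex (gd (some 0) v S τ Y) < ex Y := by
  have h1 : dg (gd (some 0) v S τ Y) none ≤ 3 := by
    rw [dg_gd_none hS]
    have := ind_le τ
    have h3 : (∑ b, (if S b then ind (Y s(v, b)) else 0)) = 2 := h2
    omega
  have h5 : dg (gd (some 0) v S τ Y) (some v) + 1 ≤ dg Y v := by
    rw [dg_gd_v hS]
    have := ind_le τ
    have h3 : (∑ b, (if S b then ind (Y s(v, b)) else 0)) = 2 := h2
    have h6 := dg_split (v := v) (S := S) (Y := Y)
    omega
  unfold ex
  rw [Fintype.sum_option, ← Finset.add_sum_erase Finset.univ _ (Finset.mem_univ v),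
    ← Finset.add_sum_erase Finset.univ (fun a => dg Y a - 3) (Finset.mem_univ v)]
  have h6 : ∑ a ∈ Finset.univ.erase v, (dg (gd (some 0) v S τ Y) (some a) - 3) =
      ∑ a ∈ Finset.univ.erase v, (dg Y a - 3) :=
    Finset.sum_congr rfl fun a ha => by rw [dg_gd_some (Finset.ne_of_mem_erase ha)]
  rw [h6]
  omega

lemma ex_sd (hS : ¬ S v) (h2 : nS v S Y = 2) (h4 : 4 ≤ dg Y v) :
    ex (sd (some 0) v none none (gd (some 0) v S (some 0) Y)) < ex Y := by
  have h1 : dg (sd (some 0) v none none (gd (some 0) v S (some 0) Y)) (some none) ≤ 3 := by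
    rw [dg_sd_some, if_pos (Or.inl rfl), dg_gd_none hS, ind_zero]
    have h3 : (∑ b, (if S b then ind (Y s(v, b)) else 0)) = 2 := h2
    omega
  have h5 : dg (sd (some 0) v none none (gd (some 0) v S (some 0) Y)) (some (some v)) + 1 ≤
      dg Y v := by
    rw [dg_sd_some, if_pos (Or.inr rfl), dg_gd_v hS, ind_zero]
    have h3 : (∑ b, (if S b then ind (Y s(v, b)) else 0)) = 2 := h2
    have h6 := dg_split (v := v) (S := S) (Y := Y)
    omega
  unfold ex
  rw [Fintype.sum_option, Fintype.sum_option, dg_sd_none,
    ← Finset.add_sum_erase Finset.univ _ (Finset.mem_univ v),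
    ← Finset.add_sum_erase Finset.univ (fun a => dg Y a - 3) (Finset.mem_univ v)]
  have h6 : ∑ a ∈ Finset.univ.erase v,
      (dg (sd (some 0) v none none (gd (some 0) v S (some 0) Y)) (some (some a)) - 3) =
      ∑ a ∈ Finset.univ.erase v, (dg Y a - 3) :=
    Finset.sum_congr rfl fun a ha => by
      have h7 := Finset.ne_of_mem_erase ha
      rw [dg_sd_some, dg_gd_some h7, if_neg, zero_add]
      rintro (h | h)
      · exact Option.some_ne_none _ h
      · exact h7 (Option.some_injective _ h)
  rw [h6]
  omega

/-- two neighbours -/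
lemma exists_S (hd : ∀ e : Sym2 V, e.IsDiag → Y e = some 0) (h4 : 4 ≤ dg Y v) :
    ∃ T : Finset V, v ∉ T ∧ nS v (fun b => b ∈ T) Y = 2 := by
  classical
  have h1 : dg Y v = (Finset.univ.filter fun b => Y s(v, b) ≠ some 0).card := by
    unfold dg
    rw [Finset.card_filter]
    refine Finset.sum_congr rfl fun b _ => ?_
    by_cases hb : Y s(v, b) = some 0
    · rw [hb, ind_zero, if_neg (not_not.mpr rfl)]
    · rw [ind_of hb, if_pos hb]
  rw [h1] at h4
  obtain ⟨T, hT, hT2⟩ := Finset.exists_subset_card_eq (show 2 ≤
    (Finset.univ.filter fun b => Y s(v, b) ≠ some 0).card by omega)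
  refine ⟨T, fun hv => ?_, ?_⟩
  · exact (Finset.mem_filter.mp (hT hv)).2 (hd _ (Sym2.mk_isDiag_iff.mpr rfl))
  · unfold nS
    rw [Finset.sum_ite_mem, Finset.univ_inter, Finset.sum_congr rfl fun b hb =>
      ind_of (Finset.mem_filter.mp (hT hb)).2, Finset.sum_const, hT2]
    rfl

end deg

/-- **Graphs of maximal degree three.** -/
theorem tc_all (con : S_CON) (spl : S_SPL) (ser : S_SER) {sep : Prop} {P : Sch R → Prop}
    (hP : Bnd sep P) (q : Option R → Prop) (q0 : q (some 0)) (q1 : q none)
    (h : ∀ (V : Type) [Fintype V] [DecidableEq V] (Y : Sym2 V → Option R),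
      (∀ e : Sym2 V, e.IsDiag → Y e = some 0) → (∀ e, q (Y e)) → (∀ a, dg Y a ≤ 3) → Has P (TC Y)) :
    ∀ (n : ℕ) (V : Type) [Fintype V] [DecidableEq V] (Y : Sym2 V → Option R),
      (∀ e : Sym2 V, e.IsDiag → Y e = some 0) → (∀ e, q (Y e)) → ex Y ≤ n → Has P (TC Y) := by
  classical
  intro n
  induction n with
  | zero =>
    intro V _ _ Y hd hq he
    refine h V Y hd hq fun a => ?_
    have h1 : dg Y a - 3 ≤ ex Y :=
      Finset.single_le_sum (f := fun a => dg Y a - 3) (fun _ _ => Nat.zero_le _)
        (Finset.mem_univ a)
    omega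
  | succ n ih =>
    intro V _ _ Y hd hq he
    by_cases h3 : ∀ a, dg Y a ≤ 3
    · exact h V Y hd hq h3
    · push Not at h3
      obtain ⟨v, hv⟩ := h3
      obtain ⟨T, hvT, hT⟩ := exists_S hd (show 4 ≤ dg Y v by omega)
      have hgq : ∀ τ, q τ → ∀ e, q (gd (some 0) v (fun b => b ∈ T) τ Y e) := by
        intro τ hτ e
        induction e using Sym2.ind with
        | _ a b =>
          have key : ∀ b : Option V, q (gd (some 0) v (fun b => b ∈ T) τ Y s(none, b)) := by
            intro b
            rcases b with - | b
            · exact q0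
            · rw [gd_ns]
              split_ifs
              · exact hτ
              · exact hq _
              · exact q0
          rcases a with - | a
          · exact key b
          · rcases b with - | b
            · rw [Sym2.eq_swap]
              exact key _
            · rw [gd_ss]
              split_ifs
              · exact q0
              · exact hq _
      have hsq : ∀ e, q (sd (some 0) v none none (gd (some 0) v (fun b => b ∈ T) (some 0) Y) e) := by
        intro e
        induction e using Sym2.ind with
        | _ a b =>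
          have key : ∀ b : Option (Option V), q (sd (some 0) v none none
              (gd (some 0) v (fun b => b ∈ T) (some 0) Y) s(none, b)) := by
            intro b
            rcases b with - | - | b
            · exact q0
            · exact q1
            · change q (if b = v then none else some 0)
              split_ifs
              · exact q1
              · exact q0
          rcases a with - | a
          · exact key b
          · rcases b with - | b
            · rw [Sym2.eq_swap]
              exact key _
            · rw [sd_some]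
              exact hgq _ q0 _
      refine split_step (v := v) (S := fun b => b ∈ T) con spl ser hP hvT Y hd ?_ ?_ ?_
      · refine ih (Option V) _ (gd_diag hvT hd) (hgq _ q0) ?_
        exact Nat.le_of_lt_succ (lt_of_lt_of_le
          (ex_gd (τ := some 0) hvT hT (show 4 ≤ dg Y v by omega)) he)
      · refine ih (Option V) _ (gd_diag hvT hd) (hgq _ q1) ?_
        exact Nat.le_of_lt_succ (lt_of_lt_of_le
          (ex_gd (τ := none) hvT hT (show 4 ≤ dg Y v by omega)) he)
      · refine ih (Option (Option V)) _ (sd_diag (gd_diag hvT hd)) hsq ?_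
        exact Nat.le_of_lt_succ (lt_of_lt_of_le
          (ex_sd hvT hT (show 4 ≤ dg Y v by omega)) he)

end Pool.Agent.H57.GD
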