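import Pool.Agent.H57.GD.Defs
import Pool.Agent.H57.GD.Deg
import Pool.Agent.H57.GH.Main

/-!
# The complements of the graph hypersurfaces of graphs of maximal degree three are universal
-/

set_option autoImplicit false

open CategoryTheory AlgebraicGeometry MvPolynomial Pool.Agent.Y116.UV Pool.Agent.Z125.UN Matrix
  Pool.Agent.H57.ZP Pool.Agent.H57.GH

namespace Pool.Agent.H57.GD

variable {R : Type} [CommRing R] {sep : Prop} {P : Sch R → Prop}

section bridge

variable {V : Type} [Fintype V] [DecidableEq V] (G : SimpleGraph V) (w : G.edgeSet → Option R)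

/-- The complement of the graph hypersurface, by its points. -/
def KC : Cond R {e : G.edgeSet // w e = none} := fun _ _ _ u => IsUnit (kir G (wval w u))

open Classical in
/-- the weights on all pairs -/
noncomputable def pat (e : Sym2 V) : Option R := if h : e ∈ G.edgeSet then w ⟨e, h⟩ else some 0

omit [Fintype V] [DecidableEq V] in
lemma pat_mem {e : Sym2 V} (h : e ∈ G.edgeSet) : pat G w e = w ⟨e, h⟩ := dif_pos h

omit [Fintype V] [DecidableEq V] in
lemma pat_nmem {e : Sym2 V} (h : e ∉ G.edgeSet) : pat G w e = some 0 := dif_neg h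

omit [Fintype V] [DecidableEq V] in
lemma ez_restr {C : Type} [CommRing C] [Algebra R C] {y : Sym2 V → C} (hy : VK (pat G w) C y) :
    ez G (wval w fun e => y e.1.1) = y := by
  funext e
  by_cases he : e ∈ G.edgeSet
  · rw [ez_mem _ _ he]
    cases hc : w ⟨e, he⟩ with
    | none => exact wval_none w _ hc
    | some c =>
      rw [wval_some w _ hc]
      exact (hy e c ((pat_mem G w he).trans hc)).symm
  · rw [ez_nmem _ _ he, hy e 0 (pat_nmem G w he), map_zero]

omit [Fintype V] [DecidableEq V] in
lemma vk_ez {C : Type} [CommRing C] [Algebra R C] (u : {e : G.edgeSet // w e = none} → C) :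
    VK (pat G w) C (ez G (wval w u)) := by
  intro e c hc
  by_cases he : e ∈ G.edgeSet
  · rw [pat_mem G w he] at hc
    rw [ez_mem _ _ he]
    exact wval_some w u hc
  · rw [pat_nmem G w he] at hc
    rw [ez_nmem _ _ he, ← Option.some_injective _ hc, map_zero]

lemma rep_KC : IsRep (KC G w) := by
  refine (rep_unit (kir G (wvar w))).congr fun C _ _ u => ?_
  have h2 : aeval u (kir G (wvar w)) = kir G (wval w u) := by
    have h3 := map_kir G (wvar w)
      ((aeval u : MvPolynomial {e : G.edgeSet // w e = none} R →ₐ[R] C) : _ →+* C)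
    refine h3.trans ?_
    congr 1
    funext e
    exact aeval_wvar w u e
  rw [h2]
  rfl

lemma tc_of_kc (hP : Bnd sep P) (h : Has P (KC G w)) : Has P (TC (pat G w)) := by
  refine h.iso hP (rep_TC _) (fun e => X e.1.1) ?_ ?_ ?_
  · intro C _ _ y hy
    simp only [aeval_X]
    change IsUnit (kir G (wval w fun e => y e.1.1))
    rw [kir_eq_tau, ez_restr G w hy.1]
    exact hy.2
  · intro C _ _ u hu
    refine ⟨ez G (wval w u), ⟨vk_ez G w u, ?_⟩, fun e => ?_⟩
    · rw [← kir_eq_tau]
      exact hu
    · rw [aeval_X, ez_mem _ _ e.1.2]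
      exact wval_none w u e.2
  · intro C _ _ y y' hy hy' h3
    simp only [aeval_X] at h3
    rw [← ez_restr G w hy.1, ← ez_restr G w hy'.1, funext h3]

lemma kc_of_tc (hP : Bnd sep P) (h : Has P (TC (pat G w))) : Has P (KC G w) := by
  have h4 : ∀ (C : Type) [CommRing C] [Algebra R C] (u : {e : G.edgeSet // w e = none} → C)
      (e : Sym2 V), aeval u (ez G (wvar w) e) = ez G (wval w u) e := by
    intro C _ _ u e
    refine (map_ez G (wvar w) ((aeval u : MvPolynomial {e : G.edgeSet // w e = none} R →ₐ[R] C) :
      _ →+* C) e).trans ?_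
    congr 1
    funext e
    exact aeval_wvar w u e
  refine h.iso hP (rep_KC G w) (fun e => ez G (wvar w) e) ?_ ?_ ?_
  · intro C _ _ u hu
    simp only [h4]
    refine ⟨vk_ez G w u, ?_⟩
    change IsUnit (tau (ez G (wval w u)))
    rw [← kir_eq_tau]
    exact hu
  · intro C _ _ y hy
    refine ⟨fun e => y e.1.1, ?_, fun e => ?_⟩
    · change IsUnit (kir G (wval w fun e => y e.1.1))
      rw [kir_eq_tau, ez_restr G w hy.1]
      exact hy.2
    · rw [h4, ez_restr G w hy.1]
  · intro C _ _ u u' _ _ h3
    funext e
    have h5 := h3 e.1.1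
    rw [h4, h4, ez_mem _ _ e.1.2, ez_mem _ _ e.1.2] at h5
    rwa [wval_none w u e.2, wval_none w u' e.2] at h5

end bridge

section pattern

variable {V : Type} [Fintype V] [DecidableEq V] (Y : Sym2 V → Option R)

/-- the graph of a pattern -/
def GP : SimpleGraph V where
  Adj a b := a ≠ b ∧ Y s(a, b) ≠ some 0
  symm := ⟨fun a b h => ⟨h.1.symm, by rw [Sym2.eq_swap]; exact h.2⟩⟩
  loopless := ⟨fun a h => h.1 rfl⟩

omit [Fintype V] [DecidableEq V] in
lemma mem_GP (hd : ∀ e : Sym2 V, e.IsDiag → Y e = some 0) (e : Sym2 V) :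
    e ∈ (GP Y).edgeSet ↔ Y e ≠ some 0 := by
  induction e using Sym2.ind with
  | _ a b =>
    rw [SimpleGraph.mem_edgeSet]
    refine ⟨fun h => h.2, fun h => ⟨fun hab => h (hd _ ?_), h⟩⟩
    rw [Sym2.mk_isDiag_iff]
    exact hab

omit [Fintype V] [DecidableEq V] in
lemma pat_GP (hd : ∀ e : Sym2 V, e.IsDiag → Y e = some 0) :
    pat (GP Y) (fun e => Y e.1) = Y := by
  funext e
  by_cases he : e ∈ (GP Y).edgeSet
  · rw [pat_mem _ _ he]
  · rw [pat_nmem _ _ he]
    by_contra h
    exact he ((mem_GP Y hd e).mpr fun h' => h h'.symm)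

omit [DecidableEq V] in
lemma maxThree_GP (h3 : ∀ a, dg Y a ≤ 3) : MaxThree (GP Y) := by
  classical
  intro a
  have h1 : dg Y a = (Finset.univ.filter fun b => Y s(a, b) ≠ some 0).card := by
    unfold dg
    rw [Finset.card_filter]
    refine Finset.sum_congr rfl fun b _ => ?_
    by_cases hb : Y s(a, b) = some 0
    · rw [hb, ind_zero, if_neg (not_not.mpr rfl)]
    · rw [ind_of hb, if_pos hb]
  have h2 : (GP Y).neighborSet a ⊆
      ((Finset.univ.filter fun b => Y s(a, b) ≠ some 0 : Finset V) : Set V) := by
    intro b hb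
    rw [SimpleGraph.mem_neighborSet] at hb
    exact Finset.mem_coe.mpr (Finset.mem_filter.mpr ⟨Finset.mem_univ _, hb.2⟩)
  refine (Set.ncard_le_ncard h2 (Finset.finite_toSet _)).trans ?_
  rw [Set.ncard_coe_finset, ← h1]
  exact h3 a

end pattern

/-- **Weighted graphs of maximal degree three.** -/
theorem universal_graphW3 (con : S_CON) (spl : S_SPL) (ser : S_SER) [IsNoetherianRing R]
    (hP : Bnd sep P)
    (h : ∀ (V : Type) [Finite V] (G : SimpleGraph V) (w : G.edgeSet → Option R), MaxThree G →
      P (graphW G w)) (X : Sch R) (hX : FT sep X) : P X := by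
  classical
  have hT : ∀ (V : Type) [Fintype V] [DecidableEq V] (Y : Sym2 V → Option R),
      (∀ e : Sym2 V, e.IsDiag → Y e = some 0) → Has P (TC Y) := by
    intro V _ _ Y hd
    refine tc_all con spl ser hP (fun _ => True) trivial trivial (fun V _ _ Y hd _ h3 => ?_) (ex Y) V
      Y hd (fun _ => trivial) le_rfl
    have h1 := tc_of_kc (GP Y) (fun e => Y e.1) hP (has_graphW hP _ _ (h V (GP Y) _
      (maxThree_GP Y h3)))
    rwa [pat_GP Y hd] at h1
  have hK : ∀ (V : Type) [Fintype V] [DecidableEq V] (G : SimpleGraph V)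
      (w : G.edgeSet → Option R), Has P (KC G w) := fun V _ _ G w =>
    kc_of_tc G w hP (hT V _ fun e he => pat_nmem G w fun h' => G.not_isDiag_of_mem_edgeSet h' he)
  refine all_of_coreK hP (coreK_of_gl hP fun n Z => ?_) X hX
  exact glk_of_sym (S := SS Z) hP Z (clo_SS Z) fun Z' _ => sm_of_graph hP _ (Yp_symm Z' ∅)
    (diag_none Z Z') (hK _ _ _)

/-- **Graphs of maximal degree three.** -/
theorem universal_graphS3 (con : S_CON) (spl : S_SPL) (ser : S_SER) [IsNoetherianRing R]
    (hR : Pool.Agent.Q193.LT.Frac R) (hP : Bnd sep P)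
    (h : ∀ (V : Type) [Finite V] (G : SimpleGraph V), MaxThree G → P (graphS R G)) (X : Sch R)
    (hX : FT sep X) : P X := by
  classical
  have hT : ∀ (V : Type) [Fintype V] [DecidableEq V] (Y : Sym2 V → Option R),
      (∀ e : Sym2 V, e.IsDiag → Y e = some 0) → (∀ e, Y e = none ∨ Y e = some 0) →
      Has P (TC Y) := by
    intro V _ _ Y hd hq
    refine tc_all con spl ser hP (fun o => o = none ∨ o = some 0) (Or.inr rfl) (Or.inl rfl)
      (fun V _ _ Y hd hq h3 => ?_) (ex Y) V Y hd hq le_rfl
    have h1 := tc_of_kc (GP Y) (fun e => Y e.1) hP (has_graphS' hP _ _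
      (fun e => (hq e.1).resolve_right ((mem_GP Y hd e.1).mp e.2)) (h V (GP Y)
        (maxThree_GP Y h3)))
    rwa [pat_GP Y hd] at h1
  have hK : ∀ (V : Type) [Fintype V] [DecidableEq V] (G : SimpleGraph V)
      (w : G.edgeSet → Option R), (∀ e, w e = none) → Has P (KC G w) := fun V _ _ G w hw =>
    kc_of_tc G w hP (hT V _ (fun e he => pat_nmem G w fun h' => G.not_isDiag_of_mem_edgeSet h' he)
      fun e => by
        by_cases he : e ∈ G.edgeSet
        · exact Or.inl ((pat_mem G w he).trans (hw _))
        · exact Or.inr (pat_nmem G w he))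
  refine all_of_gl hR hP (fun n Z => ?_) X hX
  let Zk : Fin n × Fin n → Option R := fun x => if Z x.1 x.2 then some 0 else none
  have hZk : ∀ a b, Z a b → Zk (a, b) = some 0 := fun a b h => if_pos h
  have h1 : Has P (GLk (Fin n) Zk) := by
    refine glk_of_sym (S := SS Zk) hP Zk (clo_SS Zk) fun Z' hZ' => sm_of_graph hP _ (Yp_symm Z' ∅)
      (diag_none Zk Z') (hK _ _ _ fun e => ?_)
    obtain ⟨e, he⟩ := e
    change wS _ _ e = none
    induction e using Sym2.ind with
    | _ p q =>
      rcases p with - | x
      · rfl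
      · rcases q with - | y
        · rfl
        · have h2 := ((GY_some _ _).mp he).2
          have h3 : Yp (SS Zk) Z' ∅ (x, y) = none := by
            have hz : ∀ a b, Z' (a, b) = none ∨ Z' (a, b) = some 0 := by
              intro a b
              rcases hZ' (a, b) with h4 | h4
              · rw [h4]
                change (if Z a b then some 0 else none) = none ∨
                  (if Z a b then some 0 else none) = some 0
                split_ifs
                · exact Or.inr rfl
                · exact Or.inl rfl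
              · exact Or.inr h4
            rcases x with x | x
            · rcases y with y | y
              · change (if x = y ∧ x ∉ (∅ : Finset (Fin n)) then none else some 0) = none
                by_contra h4
                refine h2 (if_neg fun h5 => h4 (if_pos h5))
              · exact (hz x y).resolve_right h2
            · rcases y with y | y
              · exact (hz y x).resolve_right h2
              · change (if s(x, y) ∈ SS Zk then none else some 0) = none
                by_contra h4
                refine h2 (if_neg fun h5 => h4 (if_pos h5))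
          change (Yp (SS Zk) Z' ∅ (x, y)).map _ = none
          rw [h3]
          rfl
  refine h1.congr fun C _ _ u => ?_
  refine and_congr_left fun _ => ⟨fun h2 a b hab => ?_, fun h2 x c hx => ?_⟩
  · have := h2 (a, b) 0 (hZk a b hab)
    rwa [map_zero] at this
  · change (if Z x.1 x.2 then some 0 else none) = some c at hx
    split_ifs at hx with h3
    rw [← Option.some_injective _ hx, map_zero]
    exact h2 x.1 x.2 h3

end Pool.Agent.H57.GD
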