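import Pool.Agent.H57.GD.SPL

/-! # GD-SER (helper75): a vertex of degree two -/

set_option autoImplicit false
set_option linter.unusedSectionVars false

open Matrix Pool.Agent.H57.GH

namespace Pool.Agent.H57.GD

namespace SERaux

variable {W : Type} [Fintype W] [DecidableEq W] {A : Type} [CommRing A]

lemma det_lap (w : Sym2 W → A) [Nonempty W] : (lap w).det = 0 := by
  have h1 : (lap w) *ᵥ (fun _ => (1 : A)) = 0 := by
    funext a
    simp only [mulVec, dotProduct, lap, Matrix.of_apply, mul_one, Pi.zero_apply]
    rw [Finset.sum_sub_distrib, Finset.sum_ite_eq, if_pos (Finset.mem_univ _), sub_self]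
  have h2 : ((lap w).adjugate * lap w) *ᵥ (fun _ => (1 : A)) = 0 := by
    rw [← mulVec_mulVec, h1, mulVec_zero]
  rw [adjugate_mul, smul_mulVec, one_mulVec] at h2
  obtain ⟨a⟩ := ‹Nonempty W›
  have h3 := congrFun h2 a
  simpa using h3

lemma updateRow_two (M : Matrix W W A) {i j : W} (h : i ≠ j) (r s : W → A) :
    (M.updateRow i r).updateRow j s = (M.updateRow j s).updateRow i r := by
  ext a b
  by_cases hj : a = j
  · subst hj
    rw [updateRow_self, updateRow_ne (Ne.symm h), updateRow_self]
  · by_cases hi : a = i
    · subst hi
      rw [updateRow_ne hj, updateRow_self, updateRow_self]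
    · rw [updateRow_ne hj, updateRow_ne hi, updateRow_ne hi, updateRow_ne hj]

end SERaux

open SPLaux SERaux in
theorem ser_sound : S_SER := by
  intro V _ _ A _ v z hz _ Z hZ hZz hZ0
  obtain ⟨L, hL⟩ : ∃ L, L = lap z := ⟨_, rfl⟩
  obtain ⟨x, hx⟩ : ∃ x, x = Z s(none, some none) := ⟨_, rfl⟩
  obtain ⟨x', hx'⟩ : ∃ x', x' = Z s(none, some (some v)) := ⟨_, rfl⟩
  have hN : (fun a b : Option V => lap Z (some a) (some b)) =
      (L.updateRow none (L none + x • Pi.single none 1)).updateRow (some v)
        (L (some v) + x' • Pi.single (some v) 1) := by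
    funext a b
    have h0 : lap Z (some a) (some b) = L a b + (if a = b then Z s(none, some a) else 0) := by
      rw [hL]
      simp only [lap, Matrix.of_apply, Option.some.injEq, Fintype.sum_option (f := fun t => Z s(some a, t)), hZz]
      rw [Sym2.eq_swap (a := some a) (b := none)]
      by_cases h : a = b
      · rw [if_pos h, if_pos h, if_pos h]
        ring
      · rw [if_neg h, if_neg h, if_neg h]
        ring
    rw [h0]
    rcases a with _ | a
    · rw [updateRow_ne (by simp), updateRow_self, Pi.add_apply, Pi.smul_apply, smul_eq_mul, ← hx]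
      by_cases h : (none : Option V) = b
      · rw [if_pos h, ← h, Pi.single_eq_same, mul_one]
      · rw [if_neg h, Pi.single_eq_of_ne (Ne.symm h), mul_zero]
    · by_cases ha : a = v
      · subst ha
        rw [updateRow_self, Pi.add_apply, Pi.smul_apply, smul_eq_mul, ← hx']
        by_cases h : some a = b
        · rw [if_pos h, ← h, Pi.single_eq_same, mul_one]
        · rw [if_neg h, Pi.single_eq_of_ne (Ne.symm h), mul_zero]
      · rw [updateRow_ne (fun h => ha (Option.some.inj h)), updateRow_ne (by simp), hZ0 a ha,
          ite_self, add_zero]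
  have hdL : L.det = 0 := by rw [hL]; exact det_lap z
  have e1 : (L.updateRow none (L none + x • Pi.single none 1)).det = x * tau z := by
    rw [det_updateRow_add, det_updateRow_smul, updateRow_eq_self, hdL, zero_add, hL,
      matrix_tree z hz none]
  have e2 : ((L.updateRow none (L none + x • Pi.single none 1)).updateRow (some v)
      (L (some v))).det = x * tau z := by
    have h1 : L (some v) = (L.updateRow none (L none + x • Pi.single none 1)) (some v) := by
      rw [updateRow_ne (by simp)]
    rw [h1, updateRow_eq_self, e1]
  have e3 : ((L.updateRow none (L none + x • Pi.single none 1)).updateRow (some v)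
      (Pi.single (some v) 1)).det = tau z + x * tau (contr v z) := by
    rw [updateRow_two L (by simp), det_updateRow_add, det_updateRow_smul]
    congr 1
    · have h1 : L none = (L.updateRow (some v) (Pi.single (some v) 1)) none := by
        rw [updateRow_ne (by simp)]
      rw [h1, updateRow_eq_self, hL, matrix_tree z hz (some v)]
    · congr 1
      obtain ⟨N0, hN0⟩ : ∃ N0 : Matrix V V A, N0 = Matrix.of fun a b => L (some a) (some b) :=
        ⟨_, rfl⟩
      have hab : ∀ a b, N0 a b = L (some a) (some b) := fun a b => by rw [hN0]; rfl
      rw [det_updateRow_none]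
      rw [← tau_contr v z hz N0 (fun a b _ _ => by rw [hab, hL])]
      have h5 : ∀ a b : V, (L.updateRow (some v) (Pi.single (some v) 1)) (some a) (some b) =
          (N0.updateRow v (Pi.single v 1)) a b := by
        intro a b
        by_cases ha : a = v
        · subst ha
          rw [updateRow_self, updateRow_self]
          by_cases hb : b = a
          · subst hb
            rw [Pi.single_eq_same, Pi.single_eq_same]
          · rw [Pi.single_eq_of_ne hb, Pi.single_eq_of_ne (fun h => hb (Option.some.inj h))]
        · rw [updateRow_ne ha, updateRow_ne (fun h => ha (Option.some.inj h)), hab]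
      exact congrArg Matrix.det (funext fun a => funext fun b => h5 a b)
  rw [tau_eq_det Z hZ, hN, det_updateRow_add, det_updateRow_smul, e2, e3, ← hx, ← hx']
  ring

end Pool.Agent.H57.GD
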