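import Pool.Agent.H57.GD.Stm

set_option autoImplicit false

open Matrix Pool.Agent.H57.GH

namespace Pool.Agent.H57.GD

namespace SPLaux

variable {V : Type} [Fintype V] [DecidableEq V] {A : Type} [CommRing A]

lemma tau_eq_det (w : Sym2 (Option V) → A) (hw : ∀ e : Sym2 (Option V), e.IsDiag → w e = 0) :
    tau w = Matrix.det fun a b : V => lap w (some a) (some b) := by
  rw [← matrix_tree w hw none, det_updateRow_none]

/-- the cofactor at `(v, v)` depends only on the other rows and columns -/
lemma cof_congr (v : V) (M N : Matrix V V A) (h : ∀ a b, a ≠ v → b ≠ v → M a b = N a b) :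
    (M.updateRow v (Pi.single v 1)).det = (N.updateRow v (Pi.single v 1)).det := by
  have key : ∀ M N : Matrix V V A, (∀ a b, a ≠ v → M a b = N a b) →
      (M.updateRow v (Pi.single v 1)).det = (N.updateRow v (Pi.single v 1)).det := by
    intro M N h
    congr 1
    ext a b
    by_cases ha : a = v
    · subst ha; simp
    · rw [updateRow_ne ha, updateRow_ne ha, h a b ha]
  have key2 : ∀ M : Matrix V V A, (M.updateRow v (Pi.single v 1)).det =
      (Mᵀ.updateRow v (Pi.single v 1)).det := by
    intro M
    rw [← adjugate_apply, ← adjugate_apply, ← adjugate_transpose, transpose_apply]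
  rw [key M (M.updateRow v (N v)) (fun a b ha => by rw [updateRow_ne ha]), key2, key2 N]
  refine key _ _ fun a b ha => ?_
  rw [transpose_apply, transpose_apply]
  by_cases hb : b = v
  · subst hb; rw [updateRow_self]
  · rw [updateRow_ne hb, h b a hb ha]

lemma contr_mk (v : V) (z : Sym2 (Option V) → A) (a b : V) : contr v z s(a, b) =
    if a = b then 0 else z s(some a, some b) +
    (if a = v then z s(none, some b) else 0) + (if b = v then z s(none, some a) else 0) := rfl

lemma contr_diag (v : V) (z : Sym2 (Option V) → A) (e : Sym2 V) (he : e.IsDiag) :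
    contr v z e = 0 := by
  induction e with
  | _ a b =>
    rw [Sym2.mk_isDiag_iff] at he
    rw [contr_mk, if_pos he]

/-- the cofactor of the contraction -/
lemma tau_contr (v : V) (z : Sym2 (Option V) → A) (hz : ∀ e : Sym2 (Option V), e.IsDiag → z e = 0)
    (N : Matrix V V A) (hN : ∀ a b, a ≠ v → b ≠ v → N a b = lap z (some a) (some b)) :
    (N.updateRow v (Pi.single v 1)).det = tau (contr v z) := by
  rw [← matrix_tree (contr v z) (contr_diag v z) v]
  refine cof_congr v _ _ fun a b ha hb => ?_
  rw [hN a b ha hb]
  simp only [lap, Matrix.of_apply, contr_mk, Option.some.injEq, Fintype.sum_option, if_neg ha,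
    if_neg hb, add_zero]
  have hd : ∀ a : V, z s(some a, some a) = 0 := fun a => hz _ (by simp)
  have h1 : (∑ t : V, if a = t then (0 : A) else z s(some a, some t) +
      (if t = v then z s(none, some a) else 0)) =
      z s(some a, none) + ∑ t : V, z s(some a, some t) := by
    have h2 : ∀ t : V, (if a = t then (0 : A) else z s(some a, some t) +
      (if t = v then z s(none, some a) else 0)) =
        z s(some a, some t) + (if t = v then z s(none, some a) else 0) := by
      intro t
      by_cases h : a = t
      · subst h
        rw [if_pos rfl, hd, if_neg ha, add_zero]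
      · rw [if_neg h]
    rw [Finset.sum_congr rfl fun t _ => h2 t, Finset.sum_add_distrib, Finset.sum_ite_eq' ,
      if_pos (Finset.mem_univ _), Sym2.eq_swap (a := some a) (b := none), add_comm]
  rw [h1]
  congr 1
  by_cases h : a = b
  · subst h; rw [if_pos rfl, hd]
  · rw [if_neg h]

end SPLaux

open SPLaux in
theorem spl_sound : S_SPL := by
  intro V _ _ A _ v z hz
  set z0 := Function.update z s(none, some v) 0 with hz0
  have hz0' : ∀ e : Sym2 (Option V), e.IsDiag → z0 e = 0 := by
    intro e he
    rw [hz0]
    by_cases h : e = s(none, some v)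
    · subst h; simp
    · rw [Function.update_of_ne h, hz e he]
  have hne : ∀ (a : V) (t : Option V), (a ≠ v ∨ t ≠ none) → z0 s(some a, t) = z s(some a, t) := by
    intro a t h
    rw [hz0, Function.update_of_ne]
    intro h'
    rcases Sym2.eq_iff.1 h' with ⟨h1, _⟩ | ⟨h1, h2⟩
    · cases h1
    · rcases h with h | h
      · exact h (Option.some.inj h1)
      · exact h h2
  have he : z0 s(some v, none) = 0 := by
    rw [hz0, Sym2.eq_swap]; simp
  have hM : (fun a b : V => lap z (some a) (some b)) =
      Matrix.updateRow (fun a b : V => lap z0 (some a) (some b)) v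
        ((fun b : V => lap z0 (some v) (some b)) + z s(none, some v) • Pi.single v 1) := by
    funext a b
    by_cases ha : a = v
    · subst ha
      rw [updateRow_self]
      simp only [lap, Matrix.of_apply, Option.some.injEq, Fintype.sum_option, Pi.add_apply,
        Pi.smul_apply, smul_eq_mul, he, hne a (some _) (Or.inr (by simp))]
      rw [Sym2.eq_swap (a := some a) (b := none)]
      by_cases hb : a = b
      · subst hb; simp; ring
      · rw [if_neg hb, if_neg hb, Pi.single_eq_of_ne (Ne.symm hb)]; ring
    · rw [updateRow_ne ha]
      simp only [lap, Matrix.of_apply, hne a _ (Or.inl ha)]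
  rw [tau_eq_det z hz, tau_eq_det z0 hz0']
  have h1 := congrArg Matrix.det hM
  rw [h1, det_updateRow_add, det_updateRow_smul]
  congr 1
  · congr 1
    exact updateRow_eq_self _ _
  · congr 1
    refine tau_contr v z hz _ fun a b ha hb => ?_
    simp only [lap, Matrix.of_apply, hne a _ (Or.inl ha)]

end Pool.Agent.H57.GD
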