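import Pool.Agent.H57.GD.Fin
import Pool.Agent.H57.GD.Contr
import Pool.Agent.H57.GD.SPL
import Pool.Agent.H57.GD.SER

/-!
# The complements of the graph hypersurfaces of graphs of maximal degree three are universal
-/

set_option autoImplicit false

open CategoryTheory AlgebraicGeometry Pool.Agent.Y116.UV Pool.Agent.Z125.UN Pool.Agent.H57.GH

namespace Pool.Agent.H57.GD

variable {R : Type} [CommRing R] {sep : Prop} {P : Sch R → Prop}

/-- **Graphs of maximal degree three with weights.** -/
theorem universal_W [IsNoetherianRing R] (hP : Bnd sep P)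
    (h : ∀ (V : Type) [Finite V] (G : SimpleGraph V) (w : G.edgeSet → Option R), MaxThree G →
      P (graphW G w)) (X : Sch R) (hX : FT sep X) : P X :=
  universal_graphW3 con_sound spl_sound ser_sound hP h X hX

/-- **Graphs of maximal degree three.** -/
theorem universal_S [IsNoetherianRing R] (hR : Pool.Agent.Q193.LT.Frac R) (hP : Bnd sep P)
    (h : ∀ (V : Type) [Finite V] (G : SimpleGraph V), MaxThree G → P (graphS R G)) (X : Sch R)
    (hX : FT sep X) : P X :=
  universal_graphS3 con_sound spl_sound ser_sound hR hP h X hX

end Pool.Agent.H57.GD
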