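import Pool.Agent.H57.GD.Stm
import Pool.Agent.H57.GH.Graph

/-!
# Splitting of a vertex
-/

set_option autoImplicit false

open CategoryTheory AlgebraicGeometry MvPolynomial Pool.Agent.Y116.UV Pool.Agent.Z125.UN Matrix
  Pool.Agent.H57.ZP Pool.Agent.H57.GH

namespace Pool.Agent.H57.GD

section maps

variable {V : Type} [DecidableEq V] {α : Type} (o : α) (v : V) (S : V → Prop) [DecidablePred S]

/-- The edges from `v` to the vertices in `S` now come from the new vertex `none`; the pair of `none` and
`v` has the value `t`. -/
def gd (t : α) (y : Sym2 V → α) : Sym2 (Option V) → α :=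
  Sym2.lift ⟨fun p q => match p, q with
    | none, none => o
    | none, some a => if a = v then t else if S a then y s(v, a) else o
    | some a, none => if a = v then t else if S a then y s(v, a) else o
    | some a, some b => if (a = v ∧ S b) ∨ (b = v ∧ S a) then o else y s(a, b), by
    intro p q
    rcases p with - | a
    · rcases q with - | b
      · rfl
      · rfl
    · rcases q with - | b
      · rfl
      · change (if (a = v ∧ S b) ∨ (b = v ∧ S a) then o else y s(a, b)) =
          if (b = v ∧ S a) ∨ (a = v ∧ S b) then o else y s(b, a)
        rw [Sym2.eq_swap]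
        congr 1
        exact propext or_comm⟩

/-- A new vertex `none`, with the value `x` on the pair with `some none` and `x'` on the pair with
`some (some v)`. -/
def sd (x x' : α) (z : Sym2 (Option V) → α) : Sym2 (Option (Option V)) → α :=
  Sym2.lift ⟨fun p q => match p, q with
    | none, none => o
    | none, some none => x
    | some none, none => x
    | none, some (some a) => if a = v then x' else o
    | some (some a), none => if a = v then x' else o
    | some p, some q => z s(p, q), by
    intro p q
    rcases p with - | - | a
    · rcases q with - | - | b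
      · rfl
      · rfl
      · rfl
    · rcases q with - | - | b
      · rfl
      · rfl
      · change z s(none, some b) = z s(some b, none)
        rw [Sym2.eq_swap]
    · rcases q with - | - | b
      · rfl
      · change z s(some a, none) = z s(none, some a)
        rw [Sym2.eq_swap]
      · change z s(some a, some b) = z s(some b, some a)
        rw [Sym2.eq_swap]⟩

variable {o v S}

omit [DecidablePred S] in
lemma sd_some (x x' : α) (z : Sym2 (Option V) → α) (p q : Option V) :
    sd o v x x' z s(some p, some q) = z s(p, q) := by
  rcases p with - | a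
  · rcases q with - | b
    · rfl
    · rfl
  · rcases q with - | b
    · rfl
    · rfl

lemma gd_ss (t : α) (y : Sym2 V → α) (a b : V) : gd o v S t y s(some a, some b) =
    if (a = v ∧ S b) ∨ (b = v ∧ S a) then o else y s(a, b) := rfl

lemma gd_ns (t : α) (y : Sym2 V → α) (a : V) : gd o v S t y s(none, some a) =
    if a = v then t else if S a then y s(v, a) else o := rfl

lemma gd_nv (t : α) (y : Sym2 V → α) : gd o v S t y s(none, some v) = t := if_pos rfl

lemma gd_diag {t : α} {y : Sym2 V → α} (hS : ¬ S v) (hy : ∀ e : Sym2 V, e.IsDiag → y e = o)
    (e : Sym2 (Option V)) (he : e.IsDiag) : gd o v S t y e = o := by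
  induction e using Sym2.ind with
  | _ p q =>
    rw [Sym2.mk_isDiag_iff] at he
    subst he
    rcases p with - | a
    · rfl
    · rw [gd_ss]
      split_ifs
      · rfl
      · exact hy _ (Sym2.mk_isDiag_iff.mpr rfl)

omit [DecidablePred S] in
lemma sd_diag {x x' : α} {z : Sym2 (Option V) → α} (hz : ∀ e : Sym2 (Option V), e.IsDiag → z e = o)
    (e : Sym2 (Option (Option V))) (he : e.IsDiag) : sd o v x x' z e = o := by
  induction e using Sym2.ind with
  | _ p q =>
    rw [Sym2.mk_isDiag_iff] at he
    subst he
    rcases p with - | p
    · rfl
    · rw [sd_some]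
      exact hz _ (Sym2.mk_isDiag_iff.mpr rfl)

/-- maps -/
lemma map_gd {β : Type} (f : α → β) (t : α) (y : Sym2 V → α) (e : Sym2 (Option V)) :
    f (gd o v S t y e) = gd (f o) v S (f t) (fun e => f (y e)) e := by
  induction e using Sym2.ind with
  | _ p q =>
    rcases p with - | a
    · rcases q with - | b
      · rfl
      · change f (if b = v then t else if S b then y s(v, b) else o) =
          if b = v then f t else if S b then f (y s(v, b)) else f o
        split_ifs <;> rfl
    · rcases q with - | b
      · change f (if a = v then t else if S a then y s(v, a) else o) =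
          if a = v then f t else if S a then f (y s(v, a)) else f o
        split_ifs <;> rfl
      · change f (if (a = v ∧ S b) ∨ (b = v ∧ S a) then o else y s(a, b)) =
          if (a = v ∧ S b) ∨ (b = v ∧ S a) then f o else f (y s(a, b))
        split_ifs <;> rfl

omit [DecidablePred S] in
lemma map_sd {β : Type} (f : α → β) (x x' : α) (z : Sym2 (Option V) → α)
    (e : Sym2 (Option (Option V))) :
    f (sd o v x x' z e) = sd (f o) v (f x) (f x') (fun e => f (z e)) e := by
  induction e using Sym2.ind with
  | _ p q =>
    rcases p with - | - | a
    · rcases q with - | - | b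
      · rfl
      · rfl
      · change f (if b = v then x' else o) = if b = v then f x' else f o
        split_ifs <;> rfl
    · rcases q with - | - | b
      · rfl
      · rfl
      · rfl
    · rcases q with - | - | b
      · change f (if a = v then x' else o) = if a = v then f x' else f o
        split_ifs <;> rfl
      · rfl
      · rfl

end maps

section ring

variable {V : Type} [DecidableEq V] {A : Type} [CommRing A] {v : V} {S : V → Prop} [DecidablePred S]

omit [DecidablePred S] in
lemma contr_off (z : Sym2 (Option V) → A) {a b : V} (h : a ≠ b) : contr v z s(a, b) =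
    z s(some a, some b) + (if a = v then z s(none, some b) else 0) +
      (if b = v then z s(none, some a) else 0) := if_neg h

omit [DecidablePred S] in
lemma contr_diag (z : Sym2 (Option V) → A) (a : V) : contr v z s(a, a) = 0 := if_pos rfl

lemma contr_gd (hS : ¬ S v) {t : A} {y : Sym2 V → A} (hy : ∀ e : Sym2 V, e.IsDiag → y e = 0) :
    contr v (gd 0 v S t y) = y := by
  funext e
  induction e using Sym2.ind with
  | _ a b =>
    by_cases hab : a = b
    · subst hab
      rw [contr_diag, hy _ (Sym2.mk_isDiag_iff.mpr rfl)]
    · rw [contr_off _ hab, gd_ss, gd_ns, gd_ns]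
      by_cases ha : a = v
      · subst ha
        have hb : b ≠ a := fun h => hab h.symm
        by_cases hSb : S b
        · simp [hb, hSb, hS]
        · simp [hb, hSb, hS]
      · by_cases hb : b = v
        · subst hb
          by_cases hSa : S a
          · simp [ha, hSa, hS, Sym2.eq_swap]
          · simp [ha, hSa, hS]
        · simp [ha, hb]

lemma update_gd (t : A) (y : Sym2 V → A) :
    Function.update (gd 0 v S t y) s(none, some v) 0 = gd 0 v S 0 y := by
  funext e
  by_cases he : e = s(none, some v)
  · subst he
    rw [Function.update_self, gd_nv]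
  · rw [Function.update_of_ne he]
    induction e using Sym2.ind with
    | _ p q =>
      rcases p with - | a
      · rcases q with - | b
        · rfl
        · have hb : b ≠ v := fun h => he (by rw [h])
          rw [gd_ns, gd_ns, if_neg hb, if_neg hb]
      · rcases q with - | b
        · have ha : a ≠ v := fun h => he (by rw [h, Sym2.eq_swap])
          rw [Sym2.eq_swap, gd_ns, gd_ns, if_neg ha, if_neg ha]
        · rfl

end ring

section pattern

variable {R : Type} [CommRing R] {V : Type} [Fintype V] [DecidableEq V] {v : V} {S : V → Prop}
  [DecidablePred S]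

/-- The weights `y` on all pairs with the prescribed values `Y` for which `tau y` is invertible. -/
def TC (Y : Sym2 V → Option R) : Cond R (Sym2 V) := fun C _ _ y => VK Y C y ∧ IsUnit (tau y)

lemma map_tau {A B : Type} [CommRing A] [CommRing B] (f : A →+* B) (w : Sym2 V → A) :
    f (tau w) = tau fun e => f (w e) := by
  classical
  unfold tau
  rw [map_sum]
  exact Finset.sum_congr rfl fun T _ => map_prod f _ _

lemma aeval_tau {σ : Type} {C : Type} [CommRing C] [Algebra R C] (u : σ → C)
    (w : Sym2 V → MvPolynomial σ R) : aeval u (tau w) = tau fun e => aeval u (w e) :=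
  map_tau ((aeval u : MvPolynomial σ R →ₐ[R] C) : _ →+* C) w

lemma rep_TC (Y : Sym2 V → Option R) : IsRep (TC Y) := by
  refine ((rep_VK Y).and (rep_unit (tau (X : Sym2 V → MvPolynomial (Sym2 V) R)))).congr
    fun C _ _ u => ?_
  rw [aeval_tau]
  simp only [aeval_X]
  rfl

omit [Fintype V] in
/-- the patterns of the splitting -/
lemma vk_gd {Y : Sym2 V → Option R} {C : Type} [CommRing C] [Algebra R C] {y : Sym2 V → C}
    (hy : VK Y C y) {τ : Option R} {t : C} (ht : ∀ c, τ = some c → t = algebraMap R C c) :
    VK (gd (some 0) v S τ Y) C (gd 0 v S t y) := by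
  intro e c hc
  induction e using Sym2.ind with
  | _ p q =>
    have key : ∀ b : V, gd (some (0 : R)) v S τ Y s(none, some b) = some c →
        gd (0 : C) v S t y s(none, some b) = algebraMap R C c := by
      intro b hc
      rw [gd_ns] at hc ⊢
      by_cases hb : b = v
      · rw [if_pos hb] at hc ⊢
        exact ht c hc
      · rw [if_neg hb] at hc ⊢
        by_cases hSb : S b
        · rw [if_pos hSb] at hc ⊢
          exact hy _ c hc
        · rw [if_neg hSb] at hc ⊢
          rw [← Option.some_injective _ hc, map_zero]
    rcases p with - | a
    · rcases q with - | b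
      · change some 0 = some c at hc
        change (0 : C) = _
        rw [← Option.some_injective _ hc, map_zero]
      · exact key b hc
    · rcases q with - | b
      · rw [Sym2.eq_swap] at hc ⊢
        exact key a hc
      · rw [gd_ss] at hc ⊢
        split_ifs at hc ⊢ with h
        · rw [← Option.some_injective _ hc, map_zero]
        · exact hy _ c hc

omit [Fintype V] in
lemma vk_contr (hS : ¬ S v) {Y : Sym2 V → Option R} (hd : ∀ e : Sym2 V, e.IsDiag → Y e = some 0)
    {τ : Option R} {C : Type} [CommRing C] [Algebra R C] {z : Sym2 (Option V) → C}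
    (hz : VK (gd (some 0) v S τ Y) C z) :
    VK Y C (contr v z) ∧ gd 0 v S (z s(none, some v)) (contr v z) = z := by
  have h0 : ∀ e, gd (some (0 : R)) v S τ Y e = some 0 → z e = 0 := by
    intro e he
    rw [hz e 0 he, map_zero]
  have h1 : ∀ b, S b → z s(some v, some b) = 0 := fun b hb => h0 _ (by
    rw [gd_ss, if_pos (Or.inl ⟨rfl, hb⟩)])
  have h2 : ∀ b, b ≠ v → ¬ S b → z s(none, some b) = 0 := fun b hb hSb => h0 _ (by
    rw [gd_ns, if_neg hb, if_neg hSb])
  have h3 : ∀ a, z s(some a, some a) = 0 := fun a => h0 _ (gd_diag hS hd _
    (Sym2.mk_isDiag_iff.mpr rfl))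
  have h4 : z s(none, none) = 0 := h0 _ rfl
  -- the contraction at the pairs with `v`
  have h5 : ∀ b, b ≠ v → contr v z s(v, b) = z s(some v, some b) + z s(none, some b) := by
    intro b hb
    rw [contr_off _ (Ne.symm hb), if_pos rfl, if_neg hb, add_zero]
  have h6 : ∀ a b, a ≠ v → b ≠ v → a ≠ b → contr v z s(a, b) = z s(some a, some b) := by
    intro a b ha hb hab
    rw [contr_off _ hab, if_neg ha, if_neg hb, add_zero, add_zero]
  have h7 : ∀ b, b ≠ v → ∀ c, Y s(v, b) = some c → contr v z s(v, b) = algebraMap R C c := by
    intro b hb c hc
    rw [h5 b hb]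
    by_cases hSb : S b
    · rw [h1 b hSb, zero_add]
      exact hz _ c (by rw [gd_ns, if_neg hb, if_pos hSb]; exact hc)
    · rw [h2 b hb hSb, add_zero]
      refine hz _ c ?_
      rw [gd_ss, if_neg]
      · exact hc
      · rintro (h | h)
        · exact hSb h.2
        · exact hb h.1
  constructor
  · intro e c hc
    induction e using Sym2.ind with
    | _ a b =>
      by_cases hab : a = b
      · subst hab
        rw [hd _ (Sym2.mk_isDiag_iff.mpr rfl)] at hc
        rw [contr_diag, ← Option.some_injective _ hc, map_zero]
      · by_cases ha : a = v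
        · subst ha
          exact h7 b (Ne.symm hab) c hc
        · by_cases hb : b = v
          · subst hb
            rw [Sym2.eq_swap] at hc ⊢
            exact h7 a hab c hc
          · rw [h6 a b ha hb hab]
            refine hz _ c ?_
            rw [gd_ss, if_neg]
            · exact hc
            · rintro (h | h)
              · exact ha h.1
              · exact hb h.1
  · funext e
    induction e using Sym2.ind with
    | _ p q =>
      have key : ∀ b : V, gd (0 : C) v S (z s(none, some v)) (contr v z) s(none, some b) =
          z s(none, some b) := by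
        intro b
        rw [gd_ns]
        by_cases hb : b = v
        · rw [if_pos hb, hb]
        · rw [if_neg hb]
          by_cases hSb : S b
          · rw [if_pos hSb, h5 b hb, h1 b hSb, zero_add]
          · rw [if_neg hSb, h2 b hb hSb]
      rcases p with - | a
      · rcases q with - | b
        · exact h4.symm
        · exact key b
      · rcases q with - | b
        · rw [Sym2.eq_swap (a := some a) (b := none)]
          exact key a
        · rw [gd_ss]
          by_cases hab : a = b
          · subst hab
            rw [contr_diag, ite_self, h3]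
          · by_cases ha : a = v
            · subst ha
              by_cases hSb : S b
              · rw [if_pos (Or.inl ⟨rfl, hSb⟩), h1 b hSb]
              · have hb : b ≠ a := Ne.symm hab
                rw [if_neg, h5 b hb, h2 b hb hSb, add_zero]
                rintro (h | h)
                · exact hSb h.2
                · exact hb h.1
            · by_cases hb : b = v
              · subst hb
                by_cases hSa : S a
                · rw [if_pos (Or.inr ⟨rfl, hSa⟩), Sym2.eq_swap, h1 a hSa]
                · rw [if_neg, Sym2.eq_swap, h5 a ha, h2 a ha hSa, add_zero, Sym2.eq_swap]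
                  rintro (h | h)
                  · exact ha h.1
                  · exact hSa h.2
              · rw [if_neg, h6 a b ha hb hab]
                rintro (h | h)
                · exact ha h.1
                · exact hb h.1

variable {sep : Prop} {P : Sch R → Prop}

/-- **Splitting of a vertex.** -/
theorem split_step (con : S_CON) (spl : S_SPL) (ser : S_SER) (hP : Bnd sep P) (hS : ¬ S v)
    (Y : Sym2 V → Option R) (hd : ∀ e : Sym2 V, e.IsDiag → Y e = some 0)
    (h0 : Has P (TC (gd (some 0) v S (some 0) Y)))
    (h1 : Has P (TC (gd (some 0) v S none Y)))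
    (h2 : Has P (TC (sd (some 0) v none none (gd (some 0) v S (some 0) Y)))) : Has P (TC Y) := by
  have hdg : ∀ {C : Type} [CommRing C] [Algebra R C] {y : Sym2 V → C}, VK Y C y →
      ∀ e : Sym2 V, e.IsDiag → y e = 0 := by
    intro C _ _ y hy e he
    rw [hy e 0 (hd e he), map_zero]
  let A : MvPolynomial (Sym2 V) R := tau (gd 0 v S 0 X)
  let B : MvPolynomial (Sym2 V) R := tau X
  have hA : ∀ {C : Type} [CommRing C] [Algebra R C] (y : Sym2 V → C),
      aeval y A = tau (gd 0 v S 0 y) := by
    intro C _ _ y
    refine (aeval_tau y _).trans ?_
    congr 1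
    funext e
    refine (map_gd _ _ _ e).trans ?_
    simp only [map_zero, aeval_X]
  have hB : ∀ {C : Type} [CommRing C] [Algebra R C] (y : Sym2 V → C), aeval y B = tau y := by
    intro C _ _ y
    refine (aeval_tau y _).trans ?_
    simp only [aeval_X]
  have hfin := con hP (rep_VK Y) A B ?_ ?_ ?_
  · refine hfin.congr fun C _ _ u => ?_
    rw [hB]
    rfl
  · refine h0.iso hP ((rep_VK Y).and (rep_unit A)) (fun e => gd 0 v S 0 X e) ?_ ?_ ?_
    · intro C _ _ u hu
      have h3 : (fun e => aeval u (gd 0 v S 0 X e : MvPolynomial (Sym2 V) R)) = gd 0 v S 0 u := by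
        funext e
        refine (map_gd _ _ _ e).trans ?_
        simp only [map_zero, aeval_X]
      rw [h3]
      refine ⟨vk_gd hu.1 fun c hc => ?_, ?_⟩
      · rw [← Option.some_injective _ hc, map_zero]
      · have := hu.2
        rwa [hA] at this
    · intro C _ _ z hz
      obtain ⟨h4, h5⟩ := vk_contr hS hd hz.1
      have h6 : z s(none, some v) = 0 := by
        rw [hz.1 s(none, some v) 0 (gd_nv _ _), map_zero]
      rw [h6] at h5
      refine ⟨contr v z, ⟨h4, ?_⟩, fun e => ?_⟩
      · rw [hA, h5]
        exact hz.2
      · refine ((map_gd _ _ _ e).trans ?_).trans (congrFun h5 e)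
        simp only [map_zero, aeval_X]
    · intro C _ _ u u' hu hu' h3
      have h4 : ∀ u : Sym2 V → C, (fun e => aeval u (gd 0 v S 0 X e : MvPolynomial (Sym2 V) R)) =
          gd 0 v S 0 u := by
        intro u
        funext e
        refine (map_gd _ _ _ e).trans ?_
        simp only [map_zero, aeval_X]
      have h5 : gd 0 v S 0 u = gd 0 v S 0 u' := by
        rw [← h4, ← h4]
        exact funext h3
      rw [← contr_gd hS (t := 0) (hdg hu.1), h5, contr_gd hS (hdg hu'.1)]
  · have hrep : IsRep (R := R) fun C _ _ (u : Sym2 V ⊕ Unit → C) =>
        (VK Y C fun s => u (Sum.inl s)) ∧ IsUnit (aeval (fun s => u (Sum.inl s)) A +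
          u (Sum.inr ()) * aeval (fun s => u (Sum.inl s)) B) := by
      refine (((rep_VK Y).reindex Sum.inl).and (rep_unit (rename Sum.inl A + X (Sum.inr ()) *
        rename Sum.inl B))).congr fun C _ _ u => ?_
      rw [map_add, map_mul, aeval_X, aeval_rename, aeval_rename]
      rfl
    have h4 : ∀ {C : Type} [CommRing C] [Algebra R C] (u : Sym2 V ⊕ Unit → C)
        (e : Sym2 (Option V)), aeval u (gd 0 v S (X (Sum.inr ())) (fun s => X (Sum.inl s)) e :
          MvPolynomial (Sym2 V ⊕ Unit) R) = gd 0 v S (u (Sum.inr ())) (fun s => u (Sum.inl s)) e := by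
      intro C _ _ u e
      refine (map_gd _ _ _ e).trans ?_
      simp only [map_zero, aeval_X]
    have h5 : ∀ {C : Type} [CommRing C] [Algebra R C] (t : C) (y : Sym2 V → C), VK Y C y →
        tau (gd 0 v S t y) = aeval y A + t * aeval y B := by
      intro C _ _ t y hy
      rw [hA, hB, spl v (gd 0 v S t y) (gd_diag hS (hdg hy)), update_gd, gd_nv,
        contr_gd hS (hdg hy)]
    refine h1.iso hP hrep (fun e => gd 0 v S (X (Sum.inr ())) (fun s => X (Sum.inl s)) e) ?_ ?_ ?_
    · intro C _ _ u hu
      simp only [h4]
      refine ⟨vk_gd hu.1 fun c hc => absurd hc.symm (Option.some_ne_none c), ?_⟩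
      change IsUnit (tau (gd 0 v S (u (Sum.inr ())) fun s => u (Sum.inl s)))
      rw [h5 _ _ hu.1]
      exact hu.2
    · intro C _ _ z hz
      obtain ⟨h6, h7⟩ := vk_contr hS hd hz.1
      refine ⟨Sum.elim (contr v z) fun _ => z s(none, some v), ⟨h6, ?_⟩, fun e => ?_⟩
      · change IsUnit (aeval (contr v z) A + z s(none, some v) * aeval (contr v z) B)
        rw [← h5 _ _ h6, h7]
        exact hz.2
      · rw [h4]
        exact congrFun h7 e
    · intro C _ _ u u' hu hu' h3
      have h6 : gd 0 v S (u (Sum.inr ())) (fun s => u (Sum.inl s)) =
          gd 0 v S (u' (Sum.inr ())) fun s => u' (Sum.inl s) := by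
        funext e
        exact (h4 u e).symm.trans ((h3 e).trans (h4 u' e))
      have h7 := contr_gd hS (t := u (Sum.inr ())) (hdg hu.1)
      rw [h6, contr_gd hS (hdg hu'.1)] at h7
      funext x
      rcases x with x | x
      · exact (congrFun h7 x).symm
      · have h8 := congrFun h6 s(none, some v)
        rwa [gd_nv, gd_nv] at h8
  · have hrep : IsRep (R := R) fun C _ _ (u : Sym2 V ⊕ Fin 2 → C) =>
        (VK Y C fun s => u (Sum.inl s)) ∧ IsUnit ((u (Sum.inr 0) + u (Sum.inr 1)) *
          aeval (fun s => u (Sum.inl s)) A + u (Sum.inr 0) * u (Sum.inr 1) *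
          aeval (fun s => u (Sum.inl s)) B) := by
      refine (((rep_VK Y).reindex Sum.inl).and (rep_unit ((X (Sum.inr 0) + X (Sum.inr 1)) *
        rename Sum.inl A + X (Sum.inr 0) * X (Sum.inr 1) * rename Sum.inl B))).congr
          fun C _ _ u => ?_
      simp only [map_add, map_mul, aeval_X, aeval_rename]
      rfl
    have h4 : ∀ {C : Type} [CommRing C] [Algebra R C] (u : Sym2 V ⊕ Fin 2 → C)
        (e : Sym2 (Option (Option V))), aeval u (sd 0 v (X (Sum.inr 0)) (X (Sum.inr 1))
          (gd 0 v S 0 fun s => X (Sum.inl s)) e : MvPolynomial (Sym2 V ⊕ Fin 2) R) =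
          sd 0 v (u (Sum.inr 0)) (u (Sum.inr 1)) (gd 0 v S 0 fun s => u (Sum.inl s)) e := by
      intro C _ _ u e
      refine (map_sd _ _ _ _ e).trans ?_
      simp only [map_zero, aeval_X]
      congr 1
      funext e
      refine (map_gd _ _ _ e).trans ?_
      simp only [map_zero, aeval_X]
    have h5 : ∀ {C : Type} [CommRing C] [Algebra R C] (x x' : C) (y : Sym2 V → C), VK Y C y →
        tau (sd 0 v x x' (gd 0 v S 0 y)) = (x + x') * aeval y A + x * x' * aeval y B := by
      intro C _ _ x x' y hy
      rw [hA, hB, ser v (gd 0 v S 0 y) (gd_diag hS (hdg hy)) (gd_nv _ _) (sd 0 v x x'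
        (gd 0 v S 0 y)) (sd_diag (gd_diag hS (hdg hy))) (sd_some _ _ _) fun a ha => if_neg ha,
        contr_gd hS (hdg hy)]
      have h6 : sd 0 v x x' (gd 0 v S 0 y) s(none, some none) = x := rfl
      have h7 : sd 0 v x x' (gd 0 v S 0 y) s(none, some (some v)) = x' := if_pos rfl
      rw [h6, h7]
    have h8 : ∀ {C : Type} [CommRing C] [Algebra R C] {x x' : C} {z : Sym2 (Option V) → C},
        VK (gd (some 0) v S (some 0) Y) C z →
        VK (sd (some 0) v none none (gd (some 0) v S (some 0) Y)) C (sd 0 v x x' z) := by
      intro C _ _ x x' z hz e c hc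
      induction e using Sym2.ind with
      | _ p q =>
        have key : ∀ q : Option (Option V), sd (some (0 : R)) v none none
            (gd (some 0) v S (some 0) Y) s(none, q) = some c →
            sd (0 : C) v x x' z s(none, q) = algebraMap R C c := by
          intro q hc
          rcases q with - | - | b
          · change some 0 = some c at hc
            change (0 : C) = _
            rw [← Option.some_injective _ hc, map_zero]
          · exact absurd hc.symm (Option.some_ne_none c)
          · change (if b = v then none else some 0) = some c at hc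
            change (if b = v then x' else 0) = _
            split_ifs at hc ⊢
            rw [← Option.some_injective _ hc, map_zero]
        rcases p with - | p
        · exact key q hc
        · rcases q with - | q
          · rw [Sym2.eq_swap (a := some p) (b := none)] at hc ⊢
            exact key _ hc
          · rw [sd_some] at hc ⊢
            exact hz _ c hc
    have h9 : ∀ {C : Type} [CommRing C] [Algebra R C] {Z : Sym2 (Option (Option V)) → C},
        VK (sd (some 0) v none none (gd (some 0) v S (some 0) Y)) C Z →
        VK (gd (some 0) v S (some 0) Y) C (fun e => Z (e.map some)) ∧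
          sd 0 v (Z s(none, some none)) (Z s(none, some (some v))) (fun e => Z (e.map some)) = Z := by
      intro C _ _ Z hZ
      refine ⟨fun e c hc => ?_, ?_⟩
      · induction e using Sym2.ind with
        | _ p q =>
          refine hZ _ c ?_
          rw [Sym2.map_mk]
          exact (sd_some _ _ _ p q).trans hc
      · funext e
        induction e using Sym2.ind with
        | _ p q =>
          have key : ∀ q : Option (Option V), sd (0 : C) v (Z s(none, some none))
              (Z s(none, some (some v))) (fun e => Z (e.map some)) s(none, q) = Z s(none, q) := by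
            intro q
            rcases q with - | - | b
            · change (0 : C) = _
              rw [hZ s(none, none) 0 rfl, map_zero]
            · rfl
            · change (if b = v then Z s(none, some (some v)) else 0) = _
              by_cases hb : b = v
              · rw [if_pos hb, hb]
              · rw [if_neg hb, hZ s(none, some (some b)) 0 (if_neg hb), map_zero]
          rcases p with - | p
          · exact key q
          · rcases q with - | q
            · rw [Sym2.eq_swap (a := some p) (b := none)]
              exact key _
            · rw [sd_some]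
              rfl
    refine h2.iso hP hrep (fun e => sd 0 v (X (Sum.inr 0)) (X (Sum.inr 1))
      (gd 0 v S 0 fun s => X (Sum.inl s)) e) ?_ ?_ ?_
    · intro C _ _ u hu
      simp only [h4]
      refine ⟨h8 (vk_gd hu.1 fun c hc => ?_), ?_⟩
      · rw [← Option.some_injective _ hc, map_zero]
      · change IsUnit (tau (sd 0 v (u (Sum.inr 0)) (u (Sum.inr 1))
          (gd 0 v S 0 fun s => u (Sum.inl s))))
        rw [h5 _ _ _ hu.1]
        exact hu.2
    · intro C _ _ Z hZ
      obtain ⟨h10, h11⟩ := h9 hZ.1
      obtain ⟨h6, h7⟩ := vk_contr hS hd h10
      have h12 : Z (Sym2.map some s(none, some v)) = 0 := by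
        have := h10 s(none, some v) 0 (gd_nv _ _)
        rwa [map_zero] at this
      rw [h12] at h7
      set y := contr v fun e => Z (e.map some) with hy
      refine ⟨Sum.elim y ![Z s(none, some none), Z s(none, some (some v))], ⟨h6, ?_⟩, fun e => ?_⟩
      · change IsUnit ((Z s(none, some none) + Z s(none, some (some v))) * aeval y A +
          Z s(none, some none) * Z s(none, some (some v)) * aeval y B)
        rw [← h5 _ _ _ h6, h7, h11]
        exact hZ.2
      · rw [h4]
        change sd 0 v (Z s(none, some none)) (Z s(none, some (some v))) (gd 0 v S 0 y) e = Z e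
        rw [h7, h11]
    · intro C _ _ u u' hu hu' h3
      have h6 : sd 0 v (u (Sum.inr 0)) (u (Sum.inr 1)) (gd 0 v S 0 fun s => u (Sum.inl s)) =
          sd 0 v (u' (Sum.inr 0)) (u' (Sum.inr 1)) (gd 0 v S 0 fun s => u' (Sum.inl s)) := by
        funext e
        exact (h4 u e).symm.trans ((h3 e).trans (h4 u' e))
      have h7 : gd 0 v S 0 (fun s => u (Sum.inl s)) = gd 0 v S 0 fun s => u' (Sum.inl s) := by
        funext e
        induction e using Sym2.ind with
        | _ p q =>
          have := congrFun h6 s(some p, some q)
          rwa [sd_some, sd_some] at this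
      have h10 := contr_gd hS (t := 0) (hdg hu.1)
      rw [h7, contr_gd hS (hdg hu'.1)] at h10
      have h11 : u (Sum.inr 0) = u' (Sum.inr 0) := congrFun h6 s(none, some none)
      have h12 : u (Sum.inr 1) = u' (Sum.inr 1) := by
        have h13 := congrFun h6 s(none, some (some v))
        change (if v = v then u (Sum.inr 1) else 0) = if v = v then u' (Sum.inr 1) else 0 at h13
        rwa [if_pos rfl, if_pos rfl] at h13
      funext x
      rcases x with x | x
      · exact (congrFun h10 x).symm
      · fin_cases x
        · exact h11
        · exact h12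

end pattern

end Pool.Agent.H57.GD
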