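import Pool.Agent.H57.GH.Kir
import Pool.Agent.H57.GH.Ind

/-!
# Project GD: graphs of maximal degree three; definitions and statements of the parts

`tau w` (`GH/Tree.lean`) is the sum over the spanning trees of the complete graph of the products of the
weights `w e`; `lap w` is the Laplacian; `matrix_tree w hw r : ((lap w).updateRow r (Pi.single r 1)).det =
tau w` is proved there. `Has P F`, `IsRep F`, `Has.iso`, `Has.iso'`, `has_closed`, `has_open`, `has_total`,
`has_gm`, `of_gm`, `has_space` are in `ZP/Sem.lean`, `VK` is in `ZP/KBase.lean`.
-/

set_option autoImplicit false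

open CategoryTheory AlgebraicGeometry MvPolynomial Pool.Agent.Y116.UV Pool.Agent.Z125.UN Matrix
  Pool.Agent.H57.ZP Pool.Agent.H57.GH

namespace Pool.Agent.H57.GD

/-- The contraction of the edge between the new vertex `none` and `v`. -/
def contr {V : Type} [DecidableEq V] {A : Type} [CommRing A] (v : V) (z : Sym2 (Option V) → A) :
    Sym2 V → A :=
  Sym2.lift ⟨fun a b => if a = b then 0 else z s(some a, some b) +
    (if a = v then z s(none, some b) else 0) + (if b = v then z s(none, some a) else 0), by
    intro a b
    beta_reduce
    by_cases h : a = b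
    · rw [if_pos h, if_pos h.symm]
    · rw [if_neg h, if_neg (show ¬ b = a from fun h' => h h'.symm), Sym2.eq_swap (a := some a)]
      ring⟩

/-- **Stub CON** (contraction of an edge from deletion and subdivision). Let `A`, `B` be functions on `F`.
From the three loci `A ≠ 0`; `A + x B ≠ 0`; `(x + x') A + x x' B ≠ 0` one gets the locus `B ≠ 0`.

Proof. Let `W` be the third locus (variables `x = u (inr 0)`, `x' = u (inr 1)`). It is enough
(`of_gm`, after an isomorphism) to have `W ∧ x + x' = 0`: there `x' = -x` and the condition is
`IsUnit (-x^2 B)`, i.e. `x` unit and `B` unit. By `has_closed` it is enough to have `W ∧ IsUnit (x + x')`.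
Put `x = s ρ`, `x' = s (1 - ρ)` (polynomial map from `(s, ρ)`; `s = x + x'`, `ρ = x / s`): this locus is
isomorphic to `{(s, ρ) : s unit, A + s ρ (1 - ρ) B unit}` (the determinant condition is
`s (A + s ρ (1-ρ) B)` unit). `has_total` for the function `ρ`: for `ρ = 0` it is `{s unit, A unit}`
(`has_gm`); where `ρ` is a unit, `has_total` for the function `1 - ρ`: for `ρ = 1` it is again
`{s unit, A unit}`; where `ρ` and `1 - ρ` are units, it is isomorphic, by `c = s ρ (1 - ρ)` (polynomial map
from `(s, ρ)` to `(c, ρ)`), to `{(c, ρ) : c unit, A + c B unit, ρ unit, 1 - ρ unit}`, which one gets from the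
second locus: `c` unit by `has_open` and the first locus (`c = 0`), then the product with the line of `ρ`
(`has_space`) and `has_open` for `ρ` and for `1 - ρ` (the closed parts `ρ = 0`, `ρ = 1` are the locus
without `ρ`). -/
def S_CON : Prop := ∀ {R : Type} [CommRing R] {sep : Prop} {P : Sch R → Prop} (_ : Bnd sep P)
    {σ : Type} [Finite σ] {F : Cond R σ} (_ : IsRep F) (A B : MvPolynomial σ R)
    (_ : Has P fun C _ _ u => F C u ∧ IsUnit (aeval u A))
    (_ : Has P (R := R) fun C _ _ (u : σ ⊕ Unit → C) => (F C fun s => u (Sum.inl s)) ∧
      IsUnit (aeval (fun s => u (Sum.inl s)) A + u (Sum.inr ()) * aeval (fun s => u (Sum.inl s)) B))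
    (_ : Has P (R := R) fun C _ _ (u : σ ⊕ Fin 2 → C) => (F C fun s => u (Sum.inl s)) ∧
      IsUnit ((u (Sum.inr 0) + u (Sum.inr 1)) * aeval (fun s => u (Sum.inl s)) A +
        u (Sum.inr 0) * u (Sum.inr 1) * aeval (fun s => u (Sum.inl s)) B)),
    Has P fun C _ _ u => F C u ∧ IsUnit (aeval u B)

/-- **Stub SPL** (deletion and contraction).

Proof. `tau z = det (M z)`, `M z : Matrix V V` the matrix `lap z (some a) (some b)` (`matrix_tree` with
`r = none`, and `det_updateRow_none` in `GH/Kir.lean`). Only the element `(v, v)` of `M z` contains
`z s(none, some v)`, so `M z = (M z0).updateRow v (M z0 v + z_e • Pi.single v 1)` with `z0` the weights with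
`z_e` replaced by `0`; use `det_updateRow_add`, `det_updateRow_smul`. It remains
`det ((M z0).updateRow v (Pi.single v 1)) = det ((lap (contr v z)).updateRow v (Pi.single v 1))`
(`= tau (contr v z)` by `matrix_tree`): the two matrices agree at all places `(a, b)` with `a ≠ v`, `b ≠ v`,
and `det (A.updateRow v (Pi.single v 1)) = adjugate A v v` depends only on these places (replace a column:
`adjugate_apply`, `adjugate_transpose`). -/
def S_SPL : Prop := ∀ {V : Type} [Fintype V] [DecidableEq V] {A : Type} [CommRing A] (v : V)
    (z : Sym2 (Option V) → A) (_ : ∀ e : Sym2 (Option V), e.IsDiag → z e = 0),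
    tau z = tau (Function.update z s(none, some v) 0) + z s(none, some v) * tau (contr v z)

/-- **Stub SER** (a vertex of degree two: subdivision of the edge between `none` and `some v`).

Proof. Let `L = lap z : Matrix (Option V) (Option V)`, `x = Z s(none, some none)`,
`x' = Z s(none, some (some v))`. With the root `none` of `Option (Option V)` (`matrix_tree`,
`det_updateRow_none`), `tau Z = det (L + x E_{none,none} + x' E_{some v, some v})`, by multilinearity in
these two rows equal to `det L + x det (L.updateRow none single) + x' det (L.updateRow (some v) single) +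
x x' det ((L.updateRow none single).updateRow (some v) single)`. Here `det L = 0` (the rows have the sum `0`),
the next two are `tau z` (`matrix_tree`), and the last one is, by `det_updateRow_none`, the determinant of
`(M z).updateRow v (Pi.single v 1)`, `M z a b = L (some a) (some b)`, which is `tau (contr v z)` as in SPL. -/
def S_SER : Prop := ∀ {V : Type} [Fintype V] [DecidableEq V] {A : Type} [CommRing A] (v : V)
    (z : Sym2 (Option V) → A) (_ : ∀ e : Sym2 (Option V), e.IsDiag → z e = 0)
    (_ : z s(none, some v) = 0) (Z : Sym2 (Option (Option V)) → A)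
    (_ : ∀ e : Sym2 (Option (Option V)), e.IsDiag → Z e = 0)
    (_ : ∀ p q : Option V, Z s(some p, some q) = z s(p, q))
    (_ : ∀ a : V, a ≠ v → Z s(none, some (some a)) = 0),
    tau Z = (Z s(none, some none) + Z s(none, some (some v))) * tau z +
      Z s(none, some none) * Z s(none, some (some v)) * tau (contr v z)

end Pool.Agent.H57.GD
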